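import Mathlib
import Pool.Agent.Helper126.Sus.Forc
import Pool.Agent.W876.Two.Gen

/-!
# Splitting graphs, in the forcing language

The vertex set is a set `K` of the ground model, a graph is given by a name `E` for a set of
unordered pairs.
-/

namespace Pool.Agent.W876.Spl

open Cardinal Pool.Agent.Helper126.Sus.Forc

variable {P : Type} [Preorder P] {K : Type}

/-- The set `E` of pairs contains no pair `{x, x}`: it is the edge set of a graph. -/
def IsGraph (E : Sym2 K → Set P) : Set P := fall fun x : K => fnot (meets (E s(x, x)))

/-- `c` names a function from the vertices to the natural numbers, that is a partition of the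
vertex set into the countably many pieces `{x | c x = n}`. -/
def IsCountablePartition (c : K → ℕ → Set P) : Set P := Pool.Agent.W876.Two.Gen.IsFun c

/-- The piece number `n` of the partition `c` contains an edge of the graph `E`. -/
def PieceContains (E : Sym2 K → Set P) (c : K → ℕ → Set P) (n : ℕ) : Set P :=
  fex fun x => fex fun y => fand (meets (E s(x, y))) (fand (meets (c x n)) (meets (c y n)))

/-- The chromatic number of the graph `E` is uncountable: in every partition of the vertex set
into countably many pieces some piece contains an edge. -/
def UncountablyChromatic (E : Sym2 K → Set P) : Set P :=
  fall fun c : K → ℕ → Set P => fimp (IsCountablePartition c) (fex fun n => PieceContains E c n)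

/-- The edge set `E` is the union of the pairwise disjoint sets `H d`, `d` in `D`. -/
def IsEdgePartition {D : Type} (E : Sym2 K → Set P) (H : D → Sym2 K → Set P) : Set P :=
  fand (fall fun d => fall fun e => fimp (meets (H d e)) (meets (E e)))
    (fand (fall fun e => fimp (meets (E e)) (fex fun d => meets (H d e)))
      (fall fun d => fall fun d' => fall fun _ : d ≠ d' => fall fun e =>
        fnot (fand (meets (H d e)) (meets (H d' e)))))

/-- The system of the graphs `H d`, `d` in `D`, has uncountable simultaneous chromatic number: in
every partition of the vertex set into countably many pieces some piece contains an edge of every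
graph `H d`. -/
def SimultaneouslyUncountablyChromatic {D : Type} (H : D → Sym2 K → Set P) : Set P :=
  fall fun c : K → ℕ → Set P => fimp (IsCountablePartition c)
    (fex fun n => fall fun d => PieceContains (H d) c n)

/-- The graph `E` splits to `#D` parts. -/
def SplitsTo (E : Sym2 K → Set P) (D : Type) : Set P :=
  fex fun H : D → Sym2 K → Set P =>
    fand (IsEdgePartition E H) (SimultaneouslyUncountablyChromatic H)

end Pool.Agent.W876.Spl
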