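import Mathlib
import Pool.Agent.Helper126.Fact

/-!
# Normal ultrafilters on measurable cardinals
-/

namespace Pool.Agent.W876.Spl

open Cardinal

open scoped Classical

set_option linter.unusedSectionVars false

/-- `κ` is a measurable cardinal: it is uncountable and there is a nonprincipal ultrafilter on a
set of cardinality `κ` which is closed under intersections of fewer than `κ` of its members. -/
def IsMeasurable (κ : Cardinal.{0}) : Prop :=
  ℵ₀ < κ ∧ ∃ U : Ultrafilter κ.out, (∀ x, {x} ∉ U) ∧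
    ∀ S : Set (Set κ.out), #S < κ → (∀ A ∈ S, A ∈ U) → ⋂₀ S ∈ U

/-- What is used of the ultrafilter. -/
structure Big {K : Type} (U : Ultrafilter K) : Prop where
  nonpr : ∀ x, {x} ∉ U
  compl : ∀ {I : Type}, #I ≤ ℵ_ 1 → ∀ S : I → Set K, (∀ i, S i ∈ U) → (⋂ i, S i) ∈ U
  ds : ∀ {L : Type} (f : K → Finset L), ∃ X ∈ U, ∃ R : Finset L, ∀ x ∈ X, ∀ y ∈ X, x ≠ y →
    ∀ l ∈ f x, l ∈ f y → l ∈ R

namespace Big

variable {K : Type} {U : Ultrafilter K}

theorem const (hU : Big U) {V : Type} [Countable V] (c : K → V) {X : Set K} (hX : X ∈ U) :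
    ∃ v, {x | x ∈ X ∧ c x = v} ∈ U := by
  by_contra hcon
  push Not at hcon
  have h1 : ∀ v, {x | x ∈ X ∧ c x = v}ᶜ ∈ U := fun v => by
    rw [Ultrafilter.compl_mem_iff_notMem]
    exact hcon v
  have h2 := hU.compl (I := V) ((mk_le_aleph0).trans (aleph0_le_aleph 1)) _ h1
  have h3 : X ∩ ⋂ v, {x | x ∈ X ∧ c x = v}ᶜ ∈ U := Filter.inter_mem hX h2
  obtain ⟨x, hx, hx'⟩ := Ultrafilter.nonempty_of_mem h3
  exact (Set.mem_iInter.1 hx' (c x)) ⟨hx, rfl⟩

theorem exists_mem (hU : Big U) {I : Type} [Countable I] {X : Set K} (hX : X ∈ U)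
    (Q : I → K → Prop) (h : ∀ x ∈ X, ∃ i, Q i x) : ∃ i, {x | x ∈ X ∧ Q i x} ∈ U := by
  have hne : Nonempty I := by
    obtain ⟨x, hx⟩ := Ultrafilter.nonempty_of_mem hX
    exact ⟨(h x hx).choose⟩
  let c : K → I := fun x => if hx : x ∈ X then (h x hx).choose else Classical.arbitrary I
  obtain ⟨i, hi⟩ := hU.const c hX
  refine ⟨i, Filter.mem_of_superset hi ?_⟩
  rintro x ⟨hx, hc⟩
  refine ⟨hx, ?_⟩
  have h1 : c x = (h x hx).choose := dif_pos hx
  rw [← hc, h1]
  exact (h x hx).choose_spec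

/-- coding -/
theorem code (hU : Big U) {L V : Type} [Countable V] (f : K → Finset L) (g : K → L → V)
    {X : Set K} (hX : X ∈ U) :
    ∃ X' ∈ U, X' ⊆ X ∧ ∀ x ∈ X', ∀ y ∈ X', ∀ l ∈ f x, l ∈ f y → g x l = g y l := by
  obtain ⟨X1, hX1, R, hR⟩ := hU.ds f
  obtain ⟨v, hv⟩ := hU.const (fun x => fun l : R => g x l.1) hX
  refine ⟨X1 ∩ _, Filter.inter_mem hX1 hv, fun x hx => hx.2.1, ?_⟩
  rintro x ⟨hx1, hx2, hx3⟩ y ⟨hy1, hy2, hy3⟩ l hl hl'
  by_cases hxy : x = y
  · rw [hxy]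
  · have h1 := hR x hx1 y hy1 hxy l hl hl'
    have h2 := congrFun (hx3.trans hy3.symm) ⟨l, h1⟩
    exact h2

theorem exists_two (hU : Big U) {X : Set K} (hX : X ∈ U) : ∃ x ∈ X, ∃ y ∈ X, x ≠ y := by
  obtain ⟨x, hx⟩ := Ultrafilter.nonempty_of_mem hX
  have h1 : {x}ᶜ ∈ U := by
    rw [Ultrafilter.compl_mem_iff_notMem]
    exact hU.nonpr x
  obtain ⟨y, hy, hy'⟩ := Ultrafilter.nonempty_of_mem (Filter.inter_mem hX h1)
  exact ⟨x, hx, y, hy, fun h => hy' h.symm⟩

end Big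

/-- coding for uncountable families -/
theorem code_unc {Y L V : Type} [Countable V] (f : Y → Finset L)
    (g : Y → L → V) (X : Set Y) (hX : ¬ X.Countable) :
    ∃ X' ⊆ X, ¬ X'.Countable ∧ ∀ x ∈ X', ∀ y ∈ X', ∀ l ∈ f x, l ∈ f y → g x l = g y l := by
  obtain ⟨X1, R, hX1, hX1c, -, hR⟩ := Pool.Agent.Helper126.delta_system f X hX
  obtain ⟨v, hv⟩ := Pool.Agent.Helper126.uncountable_fiber (fun x => fun l : R => g x l.1) X1 hX1c
  refine ⟨_, fun x hx => hX1 hx.1, hv, ?_⟩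
  rintro x ⟨hx1, hx2⟩ y ⟨hy1, hy2⟩ l hl hl'
  by_cases hxy : x = y
  · rw [hxy]
  · have h1 := hR x hx1 y hy1 hxy l hl hl'
    exact congrFun (hx2.trans hy2.symm) ⟨l, h1⟩

/-! ### A normal ultrafilter -/

section

variable {K : Type} [LinearOrder K] [WellFoundedLT K]

/-- a normal ultrafilter on a well ordered set -/
structure Normal (U : Ultrafilter K) : Prop where
  compl : ∀ {I : Type}, #I ≤ ℵ_ 1 → ∀ S : I → Set K, (∀ i, S i ∈ U) → (⋂ i, S i) ∈ U
  tail : ∀ x, Set.Ioi x ∈ U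
  press : ∀ h : K → K, ∀ X ∈ U, (∀ x ∈ X, h x < x) → ∃ c, {x | x ∈ X ∧ h x = c} ∈ U

theorem Normal.finset {U : Ultrafilter K} (hU : Normal U) (n : ℕ) (F : K → Finset K) (X : Set K)
    (hX : X ∈ U) (h : ∀ x ∈ X, (F x).card = n ∧ ∀ z ∈ F x, z < x) :
    ∃ R, {x | x ∈ X ∧ F x = R} ∈ U := by
  induction n generalizing F X with
  | zero =>
    refine ⟨∅, Filter.mem_of_superset hX fun x hx => ⟨hx, ?_⟩⟩
    exact Finset.card_eq_zero.1 (h x hx).1
  | succ n ih =>
    have hne : ∀ x ∈ X, ∃ z, z ∈ F x := fun x hx => by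
      have : (F x).Nonempty := by
        rw [← Finset.card_pos, (h x hx).1]
        exact Nat.succ_pos n
      exact this
    let c : K → K := fun x => if hx : x ∈ X then (hne x hx).choose else x
    have hc : ∀ x ∈ X, c x ∈ F x := fun x hx => by
      show (if hx : x ∈ X then (hne x hx).choose else x) ∈ F x
      rw [dif_pos hx]
      exact (hne x hx).choose_spec
    obtain ⟨z, hz⟩ := hU.press c X hX fun x hx => (h x hx).2 _ (hc x hx)
    obtain ⟨R, hR⟩ := ih (fun x => (F x).erase z) _ hz (by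
      rintro x ⟨hx, hxz⟩
      have h1 : z ∈ F x := hxz ▸ hc x hx
      refine ⟨?_, fun w hw => (h x hx).2 w (Finset.mem_of_mem_erase hw)⟩
      rw [Finset.card_erase_of_mem h1, (h x hx).1]
      rfl)
    refine ⟨insert z R, Filter.mem_of_superset hR ?_⟩
    rintro x ⟨⟨hx, hxz⟩, hxR⟩
    refine ⟨hx, ?_⟩
    have h1 : z ∈ F x := hxz ▸ hc x hx
    rw [← hxR, Finset.insert_erase h1]

theorem Normal.big {U : Ultrafilter K} (hU : Normal U) (hK : Infinite K) : Big U := by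
  have hnon : ∀ x, {x} ∉ U := by
    intro x hx
    obtain ⟨y, hy, hy'⟩ := Ultrafilter.nonempty_of_mem (Filter.inter_mem hx (hU.tail x))
    have h1 : y = x := hy
    subst h1
    exact absurd hy' (lt_irrefl _)
  have hconst : ∀ (c : K → ℕ) (X : Set K), X ∈ U → ∃ v, {x | x ∈ X ∧ c x = v} ∈ U := by
    intro c X hX
    by_contra hcon
    push Not at hcon
    have h1 : ∀ v, {x | x ∈ X ∧ c x = v}ᶜ ∈ U := fun v => by
      rw [Ultrafilter.compl_mem_iff_notMem]
      exact hcon v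
    have h2 := hU.compl (I := ℕ) ((mk_le_aleph0).trans (aleph0_le_aleph 1)) _ h1
    have h3 : X ∩ ⋂ v, {x | x ∈ X ∧ c x = v}ᶜ ∈ U := Filter.inter_mem hX h2
    obtain ⟨x, hx, hx'⟩ := Ultrafilter.nonempty_of_mem h3
    exact (Set.mem_iInter.1 hx' (c x)) ⟨hx, rfl⟩
  have key : ∀ f : K → Finset K, ∃ X ∈ U, ∃ R : Finset K, ∀ x ∈ X, ∀ y ∈ X, x ≠ y →
      ∀ l ∈ f x, l ∈ f y → l ∈ R := by
    intro f
    obtain ⟨n, hn⟩ := hconst (fun x => ((f x).filter (· < x)).card) Set.univ Filter.univ_mem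
    obtain ⟨R, hR⟩ := hU.finset n (fun x => (f x).filter (· < x)) _ hn (by
      rintro x ⟨_, hx⟩
      exact ⟨hx, fun z hz => (Finset.mem_filter.1 hz).2⟩)
    have hclos : {y | ∀ x < y, ∀ z ∈ f x, z < y} ∈ U := by
      by_contra hcon
      rw [← Ultrafilter.compl_mem_iff_notMem] at hcon
      have h1 : ∀ y ∈ {y | ∀ x < y, ∀ z ∈ f x, z < y}ᶜ, ∃ x < y, ∃ z ∈ f x, y ≤ z := by
        intro y hy
        by_contra hc
        push Not at hc
        exact hy hc
      let c : K → K := fun y => if hy : y ∈ {y | ∀ x < y, ∀ z ∈ f x, z < y}ᶜ then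
        (h1 y hy).choose else y
      have hc : ∀ y ∈ {y | ∀ x < y, ∀ z ∈ f x, z < y}ᶜ, c y < y ∧ ∃ z ∈ f (c y), y ≤ z := by
        intro y hy
        have h2 : c y = (h1 y hy).choose := dif_pos hy
        rw [h2]
        exact (h1 y hy).choose_spec
      obtain ⟨x0, hx0⟩ := hU.press c _ hcon fun y hy => (hc y hy).1
      have h3 : ∀ S : Finset K, ∃ b, ∀ z ∈ S, z ≤ b := by
        intro S
        have : Nonempty K := inferInstance
        exact S.exists_le
      obtain ⟨b, hb⟩ := h3 (f x0)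
      obtain ⟨y, hy, hy'⟩ := Ultrafilter.nonempty_of_mem (Filter.inter_mem hx0 (hU.tail b))
      obtain ⟨z, hz, hyz⟩ := (hc y hy.1).2
      rw [hy.2] at hz
      exact absurd (hyz.trans (hb z hz)) (not_le.2 hy')
    refine ⟨_, Filter.inter_mem hR hclos, R, ?_⟩
    rintro x ⟨⟨-, hx1⟩, hx2⟩ y ⟨⟨-, hy1⟩, hy2⟩ hxy l hl hl'
    rcases lt_or_gt_of_ne hxy with h | h
    · rw [← hy1]
      exact Finset.mem_filter.2 ⟨hl', hy2 x h l hl⟩
    · rw [← hx1]
      exact Finset.mem_filter.2 ⟨hl, hx2 y h l hl'⟩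
  refine ⟨hnon, hU.compl, ?_⟩
  intro L f
  let Z : Set L := ⋃ x, (f x : Set L)
  have hZ : #Z ≤ #K := by
    have h1 : #Z ≤ Cardinal.sum fun x => #(f x : Set L) := mk_iUnion_le_sum_mk
    refine h1.trans ?_
    refine (Cardinal.sum_le_sum _ (fun _ => ℵ₀) fun x => ?_).trans ?_
    · exact (Finset.countable_toSet _).le_aleph0
    · rw [Cardinal.sum_const']
      exact (mul_eq_left (aleph0_le_mk K) (aleph0_le_mk K) aleph0_ne_zero).le
  obtain ⟨e⟩ := hZ
  have hne : Nonempty K := inferInstance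
  let e' : L → K := fun l => if hl : l ∈ Z then e ⟨l, hl⟩ else Classical.arbitrary K
  have he' : ∀ l (hl : l ∈ Z), e' l = e ⟨l, hl⟩ := fun l hl => dif_pos hl
  have hinj : ∀ l ∈ Z, ∀ l' ∈ Z, e' l = e' l' → l = l' := by
    intro l hl l' hl' h
    rw [he' l hl, he' l' hl'] at h
    exact congrArg Subtype.val (e.injective h)
  obtain ⟨X, hX, R, hR⟩ := key fun x => (f x).image e'
  have hfin : {l | l ∈ Z ∧ e' l ∈ R}.Finite := by
    refine Set.Finite.of_finite_image (f := e') (R.finite_toSet.subset ?_) ?_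
    · rintro _ ⟨l, ⟨_, hl⟩, rfl⟩
      exact hl
    · rintro l ⟨hl, _⟩ l' ⟨hl', _⟩ h
      exact hinj l hl l' hl' h
  refine ⟨X, hX, hfin.toFinset, ?_⟩
  intro x hx y hy hxy l hl hl'
  rw [Set.Finite.mem_toFinset]
  refine ⟨Set.mem_iUnion.2 ⟨x, hl⟩, ?_⟩
  exact hR x hx y hy hxy _ (Finset.mem_image_of_mem _ hl) (Finset.mem_image_of_mem _ hl')

end

/-! ### Measurable cardinals -/

theorem exists_big (κ : Cardinal.{0}) (hκ : IsMeasurable κ) :
    ℵ_ 1 < κ ∧ ∃ U : Ultrafilter κ.ord.ToType, Big U := by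
  obtain ⟨h0, U0, hnon0, hcomp0⟩ := hκ
  have hmk : #κ.ord.ToType = κ := by rw [mk_toType, card_ord]
  obtain ⟨e⟩ : Nonempty (κ.out ≃ κ.ord.ToType) := by
    rw [← Cardinal.eq, hmk, mk_out]
  let U : Ultrafilter κ.ord.ToType := U0.map e
  have hU : ∀ A : Set κ.ord.ToType, A ∈ U ↔ e ⁻¹' A ∈ U0 := fun A => Iff.rfl
  have hcomp : ∀ {I : Type}, #I < κ → ∀ S : I → Set κ.ord.ToType, (∀ i, S i ∈ U) →
      (⋂ i, S i) ∈ U := by
    intro I hI S hS
    rw [hU]
    have h1 := hcomp0 (Set.range fun i => e ⁻¹' (S i)) (mk_range_le.trans_lt hI) (by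
      rintro _ ⟨i, rfl⟩
      exact hS i)
    refine Filter.mem_of_superset h1 ?_
    intro x hx
    rw [Set.mem_preimage, Set.mem_iInter]
    intro i
    exact hx _ ⟨i, rfl⟩
  have hnon : ∀ x, {x} ∉ U := by
    intro x hx
    rw [hU] at hx
    have : e ⁻¹' {x} = {e.symm x} := by
      ext y
      simp [Equiv.eq_symm_apply]
    rw [this] at hx
    exact hnon0 _ hx
  have hsmall : ∀ A : Set κ.ord.ToType, #A < κ → A ∉ U := by
    intro A hA hAU
    have h1 := hcomp hA (fun a : A => {a.1}ᶜ) (fun a => by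
      rw [Ultrafilter.compl_mem_iff_notMem]
      exact hnon a.1)
    obtain ⟨y, hy, hy'⟩ := Ultrafilter.nonempty_of_mem (Filter.inter_mem hAU h1)
    exact (Set.mem_iInter.1 hy' ⟨y, hy⟩) rfl
  have h1 : ℵ_ 1 < κ := by
    by_contra hcon
    push Not at hcon
    have hc : #κ.ord.ToType ≤ #(ℕ → Bool) := by
      rw [hmk, mk_pi]
      simp only [mk_bool, prod_const, mk_nat, lift_id]
      refine hcon.trans ?_
      rw [← succ_aleph0, Order.succ_le_iff]
      exact_mod_cast cantor ℵ₀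
    obtain ⟨i⟩ := hc
    have h2 : ∀ n, ∃ b, {x | i x n = b} ∈ U := by
      intro n
      by_cases h : {x | i x n = true} ∈ U
      · exact ⟨true, h⟩
      · refine ⟨false, ?_⟩
        rw [← Ultrafilter.compl_mem_iff_notMem] at h
        refine Filter.mem_of_superset h ?_
        intro x hx
        have : ¬ i x n = true := hx
        simpa using this
    choose b hb using h2
    have h3 := hcomp (I := ℕ) (by rw [mk_nat]; exact h0) _ hb
    refine hsmall _ ?_ h3
    refine lt_of_le_of_lt ?_ (one_lt_aleph0.trans h0)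
    rw [Cardinal.le_one_iff_subsingleton]
    refine ⟨fun x y => ?_⟩
    apply Subtype.ext
    apply i.injective
    funext n
    have hx := Set.mem_iInter.1 x.2 n
    have hy := Set.mem_iInter.1 y.2 n
    exact Eq.trans hx hy.symm
  refine ⟨h1, ?_⟩
  have hIic : ∀ a : κ.ord.ToType, #(Set.Iic a) < κ := by
    intro a
    have h2 : #(Set.Iio a) < κ := by
      have := Cardinal.mk_Iio_lt a (by simp)
      rwa [hmk] at this
    rw [← Set.Iio_insert]
    exact (mk_insert_le).trans_lt (add_lt_of_lt h0.le h2 (one_lt_aleph0.trans h0))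
  -- a minimal unbounded function
  let K := κ.ord.ToType
  let r : (K → K) → (K → K) → Prop := fun g h => {x | g x < h x} ∈ U
  have hwf : WellFounded r := by
    rw [wellFounded_iff_isEmpty_descending_chain]
    refine ⟨?_⟩
    rintro ⟨s, hs⟩
    have h2 := hcomp (I := ℕ) (by rw [mk_nat]; exact h0) (fun n => {x | s (n + 1) x < s n x}) hs
    obtain ⟨x, hx⟩ := Ultrafilter.nonempty_of_mem h2
    have h3 : ∀ n, s (n + 1) x < s n x := fun n => Set.mem_iInter.1 hx n
    have h4 : WellFounded (fun a b : K => a < b) := wellFounded_lt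
    rw [wellFounded_iff_isEmpty_descending_chain] at h4
    exact h4.false ⟨fun n => s n x, h3⟩
  let T : Set (K → K) := {g | ∀ a, {x | g x ≤ a} ∉ U}
  have hT : (id : K → K) ∈ T := fun a => hsmall _ (hIic a)
  obtain ⟨g, hg, hmin⟩ := hwf.has_min T ⟨_, hT⟩
  let U' : Ultrafilter K := U.map g
  have hU' : ∀ A : Set K, A ∈ U' ↔ g ⁻¹' A ∈ U := fun A => Iff.rfl
  have hcomp' : ∀ {I : Type}, #I < κ → ∀ S : I → Set K, (∀ i, S i ∈ U') → (⋂ i, S i) ∈ U' := by
    intro I hI S hS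
    rw [hU', Set.preimage_iInter]
    exact hcomp hI _ hS
  have hnorm : Normal U' := by
    refine ⟨fun hI S hS => hcomp' (hI.trans_lt h1) S hS, ?_, ?_⟩
    · intro a
      rw [hU']
      have := hg a
      rw [← Ultrafilter.compl_mem_iff_notMem] at this
      refine Filter.mem_of_superset this ?_
      intro x hx
      exact not_le.1 (show ¬ g x ≤ a from hx)
    · intro h X hX hreg
      have h2 : (h ∘ g) ∉ T := by
        intro hh
        refine hmin _ hh ?_
        rw [hU'] at hX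
        exact Filter.mem_of_superset hX fun x hx => hreg _ hx
      have h3 : ∃ a, {x | h (g x) ≤ a} ∈ U := by
        by_contra hc
        push Not at hc
        exact h2 hc
      obtain ⟨a, ha⟩ := h3
      by_contra hcon
      push Not at hcon
      have h4 : ∀ c : Set.Iic a, {x | x ∈ X ∧ h x = c.1}ᶜ ∈ U' := fun c => by
        rw [Ultrafilter.compl_mem_iff_notMem]
        exact hcon c.1
      have h5 := hcomp' (hIic a) _ h4
      have h6 : {x | h x ≤ a} ∈ U' := ha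
      obtain ⟨x, ⟨hx1, hx2⟩, hx3⟩ :=
        Ultrafilter.nonempty_of_mem (Filter.inter_mem (Filter.inter_mem hX h6) h5)
      exact (Set.mem_iInter.1 hx3 ⟨h x, hx2⟩) ⟨hx1, rfl⟩
  have hinf : Infinite K := by
    rw [Cardinal.infinite_iff, hmk]
    exact h0.le
  exact ⟨U', hnorm.big hinf⟩

end Pool.Agent.W876.Spl
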