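import Mathlib
import Pool.Agent.W876.Spl.Norm

/-!
# Finite conditions for a graph and partitions of its vertex set
-/

namespace Pool.Agent.W876.Spl

open Cardinal

open scoped Classical

set_option linter.unusedSectionVars false

/-- the pieces of information: `pt z` says that the vertex `z` occurs, `ed e b` decides whether
`e` is an edge of the graph, `ix j` says that the index `j` occurs, `co j z a n` says that in the
`j`-th partition the vertex `z` belongs to the piece with the number `(a, n)` -/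
inductive Fact (K J : Type) where
  | pt (z : K)
  | ed (e : Sym2 K) (b : Bool)
  | ix (j : J)
  | co (j : J) (z : K) (a : Bool) (n : ℕ)

/-- finite sets of facts -/
abbrev FF (K J : Type) : Type := Finset (Fact K J)

variable {K J : Type}

open Pool.Agent.W876.Spl.Fact

structure Base (p : FF K J) : Prop where
  uniq : ∀ e b b', ed e b ∈ p → ed e b' ∈ p → b = b'
  diag : ∀ e b, ed e b ∈ p → ¬ e.IsDiag
  pts : ∀ e b, ed e b ∈ p → ∀ z ∈ e, pt z ∈ p
  cix : ∀ j z a n, co j z a n ∈ p → ix j ∈ p
  cpt : ∀ j z a n, co j z a n ∈ p → pt z ∈ p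

/-- `g e b`: conditions deciding that the edge `e` belongs to the part `b`; `ab z a`: conditions
deciding that `z` has type `a`. In a piece of type `a` all edges belong to the part `!a`. -/
structure At (g : Sym2 K → Bool → Set (FF K J)) (ab : K → Bool → Set (FF K J)) (j : J)
    (p : FF K J) : Prop where
  dec : ∀ z a n, co j z a n ∈ p → ∃ r ∈ ab z a, r ⊆ p
  uniq : ∀ z a n a' n', co j z a n ∈ p → co j z a' n' ∈ p → a = a' ∧ n = n'
  pair : ∀ u v a n, u ≠ v → co j u a n ∈ p → co j v a n ∈ p →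
    ed s(u, v) false ∈ p ∨ ∃ r ∈ g s(u, v) (!a), r ⊆ p

/-- the conditions in `C` deciding the part of `e` given by the name `nu` -/
def sts (C : Set (FF K J)) (nu : Sym2 K → Set (FF K J)) (e : Sym2 K) : Bool → Set (FF K J)
  | true => {r | r ∈ C ∧ ∃ s ∈ nu e, s ⊆ r}
  | false => {r | r ∈ C ∧ ∀ r' ∈ C, r ⊆ r' → ∀ s ∈ nu e, ¬ s ⊆ r'}

theorem sts_sub {C : Set (FF K J)} {nu : Sym2 K → Set (FF K J)} {e : Sym2 K} {b : Bool}
    {r : FF K J} (h : r ∈ sts C nu e b) : r ∈ C := by
  cases b
  · exact h.1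
  · exact h.1

/-- `r` is a common extension of `p` and `q` for which `{x, y}` is the only edge between the
vertices of `p` not in `q` and the vertices of `q` not in `p` -/
structure Amal (p q : FF K J) (x y : K) (r : FF K J) : Prop where
  hl : p ⊆ r
  hr : q ⊆ r
  hx : pt x ∈ p
  hx' : pt x ∉ q
  hy : pt y ∈ q
  hy' : pt y ∉ p
  he : ed s(x, y) true ∈ r
  oth : ∀ u v, pt u ∈ p → pt u ∉ q → pt v ∈ q → pt v ∉ p → (u ≠ x ∨ v ≠ y) →
    ed s(u, v) false ∈ r

/-- a good choice of the types of the vertices -/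
structure GoodAb (U : Ultrafilter K) (C : Set (FF K J)) (nu : Sym2 K → Set (FF K J))
    (ab : K → Bool → Set (FF K J)) : Prop where
  sub : ∀ z a, ab z a ⊆ C
  dens : ∀ p ∈ C, ∀ z, ∃ q ∈ C, p ⊆ q ∧ ∃ a, ∃ r ∈ ab z a, r ⊆ q
  step : ∀ (f : K → FF K J) (a : Bool), ∀ X ∈ U,
    (∀ x ∈ X, f x ∈ C ∧ pt x ∈ f x ∧ ∃ r ∈ ab x a, r ⊆ f x) →
    ∃ x ∈ X, ∃ y ∈ X, x ≠ y ∧ ∃ r ∈ C, Amal (f x) (f y) x y r ∧
      ∃ r' ∈ sts C nu s(x, y) (!a), r' ⊆ r

/-- the choice of the types of the vertices -/
noncomputable def chooseAb (U : Ultrafilter K) (C : Set (FF K J))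
    (nu : Sym2 K → Set (FF K J)) : K → Bool → Set (FF K J) :=
  if h : ∃ ab, GoodAb U C nu ab then h.choose else fun _ _ => ∅

theorem chooseAb_good {U : Ultrafilter K} {C : Set (FF K J)}
    {nu : Sym2 K → Set (FF K J)} (h : ∃ ab, GoodAb U C nu ab) :
    GoodAb U C nu (chooseAb U C nu) := by
  unfold chooseAb
  rw [dif_pos h]
  exact h.choose_spec

theorem chooseAb_sub {U : Ultrafilter K} {C : Set (FF K J)}
    {nu : Sym2 K → Set (FF K J)} {z : K} {a : Bool} {r : FF K J}
    (h : r ∈ chooseAb U C nu z a) : r ∈ C := by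
  by_cases h' : ∃ ab, GoodAb U C nu ab
  · exact (chooseAb_good h').sub z a h
  · unfold chooseAb at h
    rw [dif_neg h'] at h
    exact absurd h (Set.notMem_empty _)

variable [LinearOrder J] [WellFoundedLT J]

/-- the conditions with indices below `j` -/
noncomputable def Cond (U : Ultrafilter K) (bk : J → Sym2 K → Set (FF K J)) : J → Set (FF K J) :=
  WellFounded.fix (wellFounded_lt (α := J)) fun j C =>
    {p | Base p ∧ (∀ i, ix i ∈ p → i < j) ∧
      ∀ (i : J) (h : i < j), At (sts (C i h) (bk i)) (chooseAb U (C i h) (bk i)) i p}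

variable {U : Ultrafilter K} {bk : J → Sym2 K → Set (FF K J)}

theorem mem_Cond {j : J} {p : FF K J} : p ∈ Cond U bk j ↔ Base p ∧ (∀ i, ix i ∈ p → i < j) ∧
    ∀ i < j, At (sts (Cond U bk i) (bk i)) (chooseAb U (Cond U bk i) (bk i)) i p := by
  unfold Cond
  rw [WellFounded.fix_eq]
  rfl

/-- the valid finite sets -/
structure Valid (U : Ultrafilter K) (bk : J → Sym2 K → Set (FF K J)) (p : FF K J) : Prop where
  base : Base p
  at_ : ∀ i, At (sts (Cond U bk i) (bk i)) (chooseAb U (Cond U bk i) (bk i)) i p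

/-- the conditions with indices in `t` -/
def CT (U : Ultrafilter K) (bk : J → Sym2 K → Set (FF K J)) (t : Set J) : Set (FF K J) :=
  {p | Valid U bk p ∧ ∀ i, ix i ∈ p → i ∈ t}

theorem Cond_eq (j : J) : Cond U bk j = CT U bk (Set.Iio j) := by
  ext p
  rw [mem_Cond]
  constructor
  · rintro ⟨h1, h2, h3⟩
    refine ⟨⟨h1, fun i => ?_⟩, h2⟩
    by_cases hi : i < j
    · exact h3 i hi
    · have hno : ∀ z a n, co i z a n ∉ p := fun z a n h => hi (h2 i (h1.cix i z a n h))
      exact ⟨fun z a n h => absurd h (hno z a n), fun z a n _ _ h => absurd h (hno z a n),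
        fun u v a n _ h => absurd h (hno u a n)⟩
  · rintro ⟨h1, h2⟩
    exact ⟨h1.base, h2, fun i _ => h1.at_ i⟩

/-- the facts with indices in `t` -/
def Keep (t : Set J) : Fact K J → Prop
  | pt _ => True
  | ed _ _ => True
  | ix j => j ∈ t
  | co j _ _ _ => j ∈ t

/-- restriction -/
noncomputable def res (t : Set J) (p : FF K J) : FF K J := p.filter (Keep t)

theorem mem_res {t : Set J} {p : FF K J} {φ : Fact K J} : φ ∈ res t p ↔ φ ∈ p ∧ Keep t φ :=
  Finset.mem_filter

theorem res_sub {t : Set J} {p : FF K J} : res t p ⊆ p := Finset.filter_subset _ _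

theorem pt_res {t : Set J} {p : FF K J} {z : K} : (pt z : Fact K J) ∈ res t p ↔ pt z ∈ p :=
  ⟨fun h => (mem_res.1 h).1, fun h => mem_res.2 ⟨h, trivial⟩⟩

theorem ed_res {t : Set J} {p : FF K J} {e : Sym2 K} {b : Bool} :
    (ed e b : Fact K J) ∈ res t p ↔ ed e b ∈ p :=
  ⟨fun h => (mem_res.1 h).1, fun h => mem_res.2 ⟨h, trivial⟩⟩

theorem sub_res {t : Set J} {p r : FF K J} (hr : ∀ i, ix i ∈ r → i ∈ t) (hb : Base r)
    (h : r ⊆ p) : r ⊆ res t p := by
  intro φ hφ
  refine mem_res.2 ⟨h hφ, ?_⟩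
  cases φ with
  | pt z => trivial
  | ed e b => trivial
  | ix j => exact hr j hφ
  | co j z a n => exact hr j (hb.cix j z a n hφ)

theorem sub_res_of_Cond {t : Set J} (ht : IsLowerSet t) {i : J} (hi : i ∈ t ∨ Set.Iio i ⊆ t)
    {p r : FF K J} (hr : r ∈ Cond U bk i) (h : r ⊆ p) : r ⊆ res t p := by
  rw [Cond_eq] at hr
  refine sub_res (fun k hk => ?_) hr.1.base h
  have h1 : k < i := hr.2 k hk
  rcases hi with hi | hi
  · exact ht h1.le hi
  · exact hi h1

theorem res_valid {t : Set J} (ht : IsLowerSet t) {p : FF K J} (hp : Valid U bk p) :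
    res t p ∈ CT U bk t := by
  refine ⟨⟨?_, fun i => ?_⟩, fun i hi => (mem_res.1 hi).2⟩
  · constructor
    · intro e b b' h1 h2
      exact hp.base.uniq e b b' (ed_res.1 h1) (ed_res.1 h2)
    · intro e b h1
      exact hp.base.diag e b (ed_res.1 h1)
    · intro e b h1 z hz
      exact pt_res.2 (hp.base.pts e b (ed_res.1 h1) z hz)
    · intro j z a n h
      obtain ⟨h1, h2⟩ := mem_res.1 h
      exact mem_res.2 ⟨hp.base.cix j z a n h1, h2⟩
    · intro j z a n h
      exact pt_res.2 (hp.base.cpt j z a n (mem_res.1 h).1)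
  · have hat := hp.at_ i
    constructor
    · intro z a n h
      obtain ⟨h1, h2⟩ := mem_res.1 h
      obtain ⟨r, hr, hrp⟩ := hat.dec z a n h1
      exact ⟨r, hr, sub_res_of_Cond ht (Or.inl h2) (chooseAb_sub hr) hrp⟩
    · intro z a n a' n' h h'
      exact hat.uniq z a n a' n' (mem_res.1 h).1 (mem_res.1 h').1
    · intro u v a n huv h h'
      obtain ⟨h1, h2⟩ := mem_res.1 h
      rcases hat.pair u v a n huv h1 (mem_res.1 h').1 with h3 | ⟨r, hr, hrp⟩
      · exact Or.inl (ed_res.2 h3)
      · exact Or.inr ⟨r, hr, sub_res_of_Cond ht (Or.inl h2) (sts_sub hr) hrp⟩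

theorem glue {t0 : Set J} {p q r : FF K J} (hp : Valid U bk p)
    (hq : Valid U bk q) (hr : r ∈ CT U bk t0) (hpr : res t0 p ⊆ r) (hqr : res t0 q ⊆ r)
    (hcoh : ∀ k ∉ t0, ∀ z a n a' n', co k z a n ∈ p → co k z a' n' ∈ q → a = a' ∧ n = n')
    (hpair : ∀ k ∉ t0, ∀ u v a n, u ≠ v → co k u a n ∈ p → co k v a n ∈ q →
      ed s(u, v) false ∈ r ∨ ∃ r' ∈ sts (Cond U bk k) (bk k) s(u, v) (!a), r' ⊆ r ∪ p ∪ q) :
    Valid U bk (r ∪ p ∪ q) := by
  have hed : ∀ e b, ed e b ∈ r ∪ p ∪ q → ed e b ∈ r := by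
    intro e b h
    rw [Finset.mem_union, Finset.mem_union] at h
    rcases h with (h | h) | h
    · exact h
    · exact hpr (ed_res.2 h)
    · exact hqr (ed_res.2 h)
  have hrs : r ⊆ r ∪ p ∪ q := Finset.subset_union_left.trans Finset.subset_union_left
  have hps : p ⊆ r ∪ p ∪ q := Finset.subset_union_right.trans Finset.subset_union_left
  have hqs : q ⊆ r ∪ p ∪ q := Finset.subset_union_right
  constructor
  · constructor
    · intro e b b' h1 h2
      exact hr.1.base.uniq e b b' (hed e b h1) (hed e b' h2)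
    · intro e b h1
      exact hr.1.base.diag e b (hed e b h1)
    · intro e b h1 z hz
      exact hrs (hr.1.base.pts e b (hed e b h1) z hz)
    · intro j z a n h
      rw [Finset.mem_union, Finset.mem_union] at h
      rcases h with (h | h) | h
      · exact hrs (hr.1.base.cix j z a n h)
      · exact hps (hp.base.cix j z a n h)
      · exact hqs (hq.base.cix j z a n h)
    · intro j z a n h
      rw [Finset.mem_union, Finset.mem_union] at h
      rcases h with (h | h) | h
      · exact hrs (hr.1.base.cpt j z a n h)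
      · exact hps (hp.base.cpt j z a n h)
      · exact hqs (hq.base.cpt j z a n h)
  · intro i
    by_cases hi : i ∈ t0
    · have hco : ∀ z a n, co i z a n ∈ r ∪ p ∪ q → co i z a n ∈ r := by
        intro z a n h
        rw [Finset.mem_union, Finset.mem_union] at h
        rcases h with (h | h) | h
        · exact h
        · exact hpr (mem_res.2 ⟨h, hi⟩)
        · exact hqr (mem_res.2 ⟨h, hi⟩)
      have hat := hr.1.at_ i
      constructor
      · intro z a n h
        obtain ⟨r', hr', h1⟩ := hat.dec z a n (hco z a n h)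
        exact ⟨r', hr', h1.trans hrs⟩
      · intro z a n a' n' h h'
        exact hat.uniq z a n a' n' (hco _ _ _ h) (hco _ _ _ h')
      · intro u v a n huv h h'
        rcases hat.pair u v a n huv (hco _ _ _ h) (hco _ _ _ h') with h3 | ⟨r', hr', h1⟩
        · exact Or.inl (hrs h3)
        · exact Or.inr ⟨r', hr', h1.trans hrs⟩
    · have hco : ∀ z a n, co i z a n ∈ r ∪ p ∪ q → co i z a n ∈ p ∨ co i z a n ∈ q := by
        intro z a n h
        rw [Finset.mem_union, Finset.mem_union] at h
        rcases h with (h | h) | h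
        · exact absurd (hr.2 i (hr.1.base.cix i z a n h)) hi
        · exact Or.inl h
        · exact Or.inr h
      constructor
      · intro z a n h
        rcases hco z a n h with h | h
        · obtain ⟨r', hr', h1⟩ := (hp.at_ i).dec z a n h
          exact ⟨r', hr', h1.trans hps⟩
        · obtain ⟨r', hr', h1⟩ := (hq.at_ i).dec z a n h
          exact ⟨r', hr', h1.trans hqs⟩
      · intro z a n a' n' h h'
        rcases hco z a n h with h | h <;> rcases hco z a' n' h' with h' | h'
        · exact (hp.at_ i).uniq z a n a' n' h h'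
        · exact hcoh i hi z a n a' n' h h'
        · obtain ⟨h1, h2⟩ := hcoh i hi z a' n' a n h' h
          exact ⟨h1.symm, h2.symm⟩
        · exact (hq.at_ i).uniq z a n a' n' h h'
      · intro u v a n huv h h'
        rcases hco u a n h with h | h <;> rcases hco v a n h' with h' | h'
        · rcases (hp.at_ i).pair u v a n huv h h' with h3 | ⟨r', hr', h1⟩
          · exact Or.inl (hps h3)
          · exact Or.inr ⟨r', hr', h1.trans hps⟩
        · rcases hpair i hi u v a n huv h h' with h3 | ⟨r', hr', h1⟩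
          · exact Or.inl (hrs h3)
          · exact Or.inr ⟨r', hr', h1⟩
        · rw [Sym2.eq_swap]
          rcases hpair i hi v u a n huv.symm h' h with h3 | ⟨r', hr', h1⟩
          · exact Or.inl (hrs h3)
          · exact Or.inr ⟨r', hr', h1⟩
        · rcases (hq.at_ i).pair u v a n huv h h' with h3 | ⟨r', hr', h1⟩
          · exact Or.inl (hqs h3)
          · exact Or.inr ⟨r', hr', h1.trans hqs⟩

/-- extending the lower part of a condition -/
theorem lift {t0 : Set J} {p r : FF K J} (hp : Valid U bk p)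
    (hr : r ∈ CT U bk t0) (hpr : res t0 p ⊆ r) : Valid U bk (r ∪ p) := by
  have h := glue hp hp hr hpr hpr (fun k _ z a n a' n' h h' => (hp.at_ k).uniq z a n a' n' h h')
    (fun k _ u v a n huv h h' => by
      rcases (hp.at_ k).pair u v a n huv h h' with h3 | ⟨r', hr', h1⟩
      · exact Or.inl (hpr (ed_res.2 h3))
      · exact Or.inr ⟨r', hr', h1.trans Finset.subset_union_right⟩)
  have : r ∪ p ∪ p = r ∪ p := by
    rw [Finset.union_assoc, Finset.union_idempotent]
  rwa [this] at h

theorem isLower_empty : IsLowerSet (∅ : Set J) := fun _ _ _ h => h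

/-- conditions without indices -/
theorem base_amal {p q : FF K J} (hp : p ∈ CT U bk ∅) (hq : q ∈ CT U bk ∅)
    (hcoh : ∀ e b b', ed e b ∈ p → ed e b' ∈ q → b = b') (w : Sym2 K → Bool) :
    ∃ r ∈ CT U bk ∅, p ⊆ r ∧ q ⊆ r ∧
      ∀ u v, pt u ∈ p → pt u ∉ q → pt v ∈ q → pt v ∉ p → ed s(u, v) (w s(u, v)) ∈ r := by
  let A : Finset K := p.preimage pt (fun _ _ _ _ h => Fact.pt.inj h)
  let B : Finset K := q.preimage pt (fun _ _ _ _ h => Fact.pt.inj h)
  have hA : ∀ z, z ∈ A ↔ pt z ∈ p := fun z => Finset.mem_preimage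
  have hB : ∀ z, z ∈ B ↔ pt z ∈ q := fun z => Finset.mem_preimage
  let N : FF K J := ((A \ B) ×ˢ (B \ A)).image fun x => ed s(x.1, x.2) (w s(x.1, x.2))
  have hN : ∀ φ, φ ∈ N ↔ ∃ u v, pt u ∈ p ∧ pt u ∉ q ∧ pt v ∈ q ∧ pt v ∉ p ∧
      ed s(u, v) (w s(u, v)) = φ := by
    intro φ
    simp only [N, Finset.mem_image, Finset.mem_product, Finset.mem_sdiff, hA, hB, Prod.exists]
    constructor
    · rintro ⟨u, v, ⟨⟨h1, h2⟩, h3, h4⟩, h5⟩
      exact ⟨u, v, h1, h2, h3, h4, h5⟩
    · rintro ⟨u, v, h1, h2, h3, h4, h5⟩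
      exact ⟨u, v, ⟨⟨h1, h2⟩, h3, h4⟩, h5⟩
  have hNew : ∀ u v b, pt u ∈ p → pt u ∉ q → pt v ∈ q → pt v ∉ p →
      ed s(u, v) b ∉ p ∧ ed s(u, v) b ∉ q := by
    intro u v b _ h2 _ h4
    exact ⟨fun h => h4 (hp.1.base.pts _ _ h v (Sym2.mem_mk_right u v)),
      fun h => h2 (hq.1.base.pts _ _ h u (Sym2.mem_mk_left u v))⟩
  have hpix : ∀ i, ix i ∉ p := fun i h => hp.2 i h
  have hqix : ∀ i, ix i ∉ q := fun i h => hq.2 i h
  have hix : ∀ i, ix i ∉ p ∪ q ∪ N := by
    intro i h
    rw [Finset.mem_union, Finset.mem_union, hN] at h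
    rcases h with (h | h) | ⟨u, v, _, _, _, _, h⟩
    · exact hpix i h
    · exact hqix i h
    · cases h
  have hco : ∀ j z a n, co j z a n ∉ p ∪ q ∪ N := by
    intro j z a n h
    rw [Finset.mem_union, Finset.mem_union, hN] at h
    rcases h with (h | h) | ⟨u, v, _, _, _, _, h⟩
    · exact hpix j (hp.1.base.cix j z a n h)
    · exact hqix j (hq.1.base.cix j z a n h)
    · cases h
  have hcases : ∀ e b, ed e b ∈ p ∪ q ∪ N → ed e b ∈ p ∨ ed e b ∈ q ∨
      ∃ u v, pt u ∈ p ∧ pt u ∉ q ∧ pt v ∈ q ∧ pt v ∉ p ∧ e = s(u, v) ∧ b = w e := by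
    intro e b h
    rw [Finset.mem_union, Finset.mem_union, hN] at h
    rcases h with (h | h) | ⟨u, v, h1, h2, h3, h4, h⟩
    · exact Or.inl h
    · exact Or.inr (Or.inl h)
    · cases h
      exact Or.inr (Or.inr ⟨u, v, h1, h2, h3, h4, rfl, rfl⟩)
  refine ⟨p ∪ q ∪ N, ⟨⟨?_, fun i => ?_⟩, fun i h => absurd h (hix i)⟩, ?_, ?_, ?_⟩
  · constructor
    · intro e b b' h1 h2
      rcases hcases e b h1 with h1 | h1 | ⟨u, v, u1, u2, u3, u4, rfl, rfl⟩
      · rcases hcases e b' h2 with h2 | h2 | ⟨u, v, u1, u2, u3, u4, rfl, rfl⟩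
        · exact hp.1.base.uniq e b b' h1 h2
        · exact hcoh e b b' h1 h2
        · exact absurd h1 (hNew u v b u1 u2 u3 u4).1
      · rcases hcases e b' h2 with h2 | h2 | ⟨u, v, u1, u2, u3, u4, rfl, rfl⟩
        · exact (hcoh e b' b h2 h1).symm
        · exact hq.1.base.uniq e b b' h1 h2
        · exact absurd h1 (hNew u v b u1 u2 u3 u4).2
      · rcases hcases s(u, v) b' h2 with h2 | h2 | ⟨u', v', _, _, _, _, _, h⟩
        · exact absurd h2 (hNew u v b' u1 u2 u3 u4).1
        · exact absurd h2 (hNew u v b' u1 u2 u3 u4).2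
        · exact h.symm
    · intro e b h1
      rcases hcases e b h1 with h1 | h1 | ⟨u, v, u1, u2, u3, u4, rfl, rfl⟩
      · exact hp.1.base.diag e b h1
      · exact hq.1.base.diag e b h1
      · rw [Sym2.mk_isDiag_iff]
        rintro rfl
        exact u2 u3
    · intro e b h1 z hz
      rcases hcases e b h1 with h1 | h1 | ⟨u, v, u1, u2, u3, u4, rfl, rfl⟩
      · exact Finset.mem_union_left _ (Finset.mem_union_left _ (hp.1.base.pts e b h1 z hz))
      · exact Finset.mem_union_left _ (Finset.mem_union_right _ (hq.1.base.pts e b h1 z hz))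
      · rw [Sym2.mem_iff] at hz
        rcases hz with rfl | rfl
        · exact Finset.mem_union_left _ (Finset.mem_union_left _ u1)
        · exact Finset.mem_union_left _ (Finset.mem_union_right _ u3)
    · intro j z a n h
      exact absurd h (hco j z a n)
    · intro j z a n h
      exact absurd h (hco j z a n)
  · exact ⟨fun z a n h => absurd h (hco i z a n), fun z a n _ _ h => absurd h (hco i z a n),
      fun u v a n _ h => absurd h (hco i u a n)⟩
  · exact Finset.subset_union_left.trans Finset.subset_union_left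
  · exact Finset.subset_union_right.trans Finset.subset_union_left
  · intro u v h1 h2 h3 h4
    exact Finset.mem_union_right _ ((hN _).2 ⟨u, v, h1, h2, h3, h4, rfl⟩)

/-- adding a vertex -/
theorem add_pt {p : FF K J} (hp : Valid U bk p) (z : K) : Valid U bk (insert (pt z) p) := by
  have h1 : ∀ φ : Fact K J, (∀ z, φ ≠ pt z) → (φ ∈ insert (pt z) p ↔ φ ∈ p) := by
    intro φ hφ
    rw [Finset.mem_insert]
    constructor
    · rintro (h | h)
      · exact absurd h (hφ z)
      · exact h
    · exact Or.inr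
  have hed : ∀ e b, (ed e b : Fact K J) ∈ insert (pt z) p → ed e b ∈ p := fun e b h =>
    (h1 _ (by intro z h; cases h)).1 h
  have hco : ∀ j w a n, (co j w a n : Fact K J) ∈ insert (pt z) p → co j w a n ∈ p :=
    fun j w a n h => (h1 _ (by intro z h; cases h)).1 h
  constructor
  · constructor
    · intro e b b' h2 h3
      exact hp.base.uniq e b b' (hed _ _ h2) (hed _ _ h3)
    · intro e b h2
      exact hp.base.diag e b (hed _ _ h2)
    · intro e b h2 w hw
      exact Finset.mem_insert_of_mem (hp.base.pts e b (hed _ _ h2) w hw)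
    · intro j w a n h
      exact Finset.mem_insert_of_mem (hp.base.cix j w a n (hco _ _ _ _ h))
    · intro j w a n h
      exact Finset.mem_insert_of_mem (hp.base.cpt j w a n (hco _ _ _ _ h))
  · intro i
    constructor
    · intro w a n h
      obtain ⟨r, hr, h2⟩ := (hp.at_ i).dec w a n (hco _ _ _ _ h)
      exact ⟨r, hr, h2.trans (Finset.subset_insert _ _)⟩
    · intro w a n a' n' h h'
      exact (hp.at_ i).uniq w a n a' n' (hco _ _ _ _ h) (hco _ _ _ _ h')
    · intro u v a n huv h h'
      rcases (hp.at_ i).pair u v a n huv (hco _ _ _ _ h) (hco _ _ _ _ h') with h3 | ⟨r, hr, h2⟩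
      · exact Or.inl (Finset.mem_insert_of_mem h3)
      · exact Or.inr ⟨r, hr, h2.trans (Finset.subset_insert _ _)⟩

/-- a number not used -/
theorem exists_fresh (p : FF K J) : ∃ N : ℕ, ∀ j z a n, co j z a n ∈ p → n < N := by
  induction p using Finset.induction_on with
  | empty => exact ⟨0, by simp⟩
  | insert φ p _ ih =>
    obtain ⟨N, hN⟩ := ih
    cases φ with
    | co j z a n =>
      refine ⟨max N (n + 1), fun j' z' a' n' h => ?_⟩
      rcases Finset.mem_insert.1 h with h | h
      · cases h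
        exact lt_of_lt_of_le (Nat.lt_succ_self _) (le_max_right _ _)
      · exact lt_of_lt_of_le (hN j' z' a' n' h) (le_max_left _ _)
    | pt z =>
      refine ⟨N, fun j' z' a' n' h => ?_⟩
      rcases Finset.mem_insert.1 h with h | h
      · cases h
      · exact hN j' z' a' n' h
    | ed e b =>
      refine ⟨N, fun j' z' a' n' h => ?_⟩
      rcases Finset.mem_insert.1 h with h | h
      · cases h
      · exact hN j' z' a' n' h
    | ix j =>
      refine ⟨N, fun j' z' a' n' h => ?_⟩
      rcases Finset.mem_insert.1 h with h | h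
      · cases h
      · exact hN j' z' a' n' h

/-- deciding the piece containing a vertex -/
theorem add_co {p : FF K J} (hp : Valid U bk p) {j : J} {z : K}
    (hgood : GoodAb U (Cond U bk j) (bk j) (chooseAb U (Cond U bk j) (bk j))) :
    ∃ q, Valid U bk q ∧ p ⊆ q ∧ ∃ a n, co j z a n ∈ q := by
  have hp1 := add_pt hp z
  obtain ⟨r, hr, hr1, a, r', hr', hrr⟩ := hgood.dens (res (Set.Iio j) (insert (pt z) p)) (by
    rw [Cond_eq]
    exact res_valid (isLowerSet_Iio j) hp1) z
  have hr0 : r ∈ CT U bk (Set.Iio j) := by rw [← Cond_eq]; exact hr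
  have hq := lift hp1 hr0 hr1
  by_cases hex : ∃ a n, co j z a n ∈ r ∪ insert (pt z) p
  · exact ⟨_, hq, (Finset.subset_insert _ _).trans Finset.subset_union_right, hex⟩
  push Not at hex
  set q := r ∪ insert (pt z) p with hqdef
  obtain ⟨N, hN⟩ := exists_fresh q
  have hrq : r ⊆ q := Finset.subset_union_left
  have hz : (pt z : Fact K J) ∈ q := Finset.mem_union_right _ (Finset.mem_insert_self _ _)
  have hed : ∀ e b, (ed e b : Fact K J) ∈ insert (ix j) (insert (co j z a N) q) → ed e b ∈ q := by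
    intro e b h
    rw [Finset.mem_insert, Finset.mem_insert] at h
    rcases h with h | h | h
    · cases h
    · cases h
    · exact h
  have hco : ∀ i w a' n, (co i w a' n : Fact K J) ∈ insert (ix j) (insert (co j z a N) q) →
      co i w a' n ∈ q ∨ (i = j ∧ w = z ∧ a' = a ∧ n = N) := by
    intro i w a' n h
    rw [Finset.mem_insert, Finset.mem_insert] at h
    rcases h with h | h | h
    · cases h
    · cases h
      exact Or.inr ⟨rfl, rfl, rfl, rfl⟩
    · exact Or.inl h
  have hsub : q ⊆ insert (ix j) (insert (co j z a N) q) :=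
    (Finset.subset_insert _ _).trans (Finset.subset_insert _ _)
  refine ⟨insert (ix j) (insert (co j z a N) q), ⟨?_, fun i => ?_⟩, ?_, a, N, ?_⟩
  · constructor
    · intro e b b' h2 h3
      exact hq.base.uniq e b b' (hed _ _ h2) (hed _ _ h3)
    · intro e b h2
      exact hq.base.diag e b (hed _ _ h2)
    · intro e b h2 w hw
      exact hsub (hq.base.pts e b (hed _ _ h2) w hw)
    · intro i w a' n h
      rcases hco i w a' n h with h | ⟨rfl, _, _, _⟩
      · exact hsub (hq.base.cix i w a' n h)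
      · exact Finset.mem_insert_self _ _
    · intro i w a' n h
      rcases hco i w a' n h with h | ⟨_, rfl, _, _⟩
      · exact hsub (hq.base.cpt i w a' n h)
      · exact hsub hz
  · constructor
    · intro w a' n h
      rcases hco i w a' n h with h | ⟨rfl, rfl, rfl, _⟩
      · obtain ⟨r', hr', h2⟩ := (hq.at_ i).dec w a' n h
        exact ⟨r', hr', h2.trans hsub⟩
      · exact ⟨r', hr', (hrr.trans hrq).trans hsub⟩
    · intro w a1 n1 a2 n2 h h'
      rcases hco i w a1 n1 h with g | ⟨rfl, rfl, rfl, rfl⟩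
      · rcases hco i w a2 n2 h' with g' | ⟨rfl, rfl, rfl, rfl⟩
        · exact (hq.at_ i).uniq w a1 n1 a2 n2 g g'
        · exact absurd g (hex _ _)
      · rcases hco i w a2 n2 h' with g' | ⟨_, _, rfl, rfl⟩
        · exact absurd g' (hex _ _)
        · exact ⟨rfl, rfl⟩
    · intro u v a' n huv h h'
      rcases hco i u a' n h with g | ⟨rfl, rfl, rfl, rfl⟩
      · rcases hco i v a' n h' with g' | ⟨rfl, rfl, rfl, rfl⟩
        · rcases (hq.at_ i).pair u v a' n huv g g' with h3 | ⟨r', hr', h2⟩
          · exact Or.inl (hsub h3)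
          · exact Or.inr ⟨r', hr', h2.trans hsub⟩
        · exact absurd (hN _ _ _ _ g) (lt_irrefl _)
      · rcases hco i v a' n h' with g' | ⟨_, rfl, _, _⟩
        · exact absurd (hN _ _ _ _ g') (lt_irrefl _)
        · exact absurd rfl huv
  · exact ((Finset.subset_insert _ _).trans Finset.subset_union_right).trans hsub
  · exact Finset.mem_insert_of_mem (Finset.mem_insert_self _ _)

end Pool.Agent.W876.Spl
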