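import Mathlib
import Pool.Agent.W876.Spl.Poset

/-!
# The countable chain condition and edges in large sets
-/

namespace Pool.Agent.W876.Spl

open Cardinal

open scoped Classical

set_option linter.unusedSectionVars false

open Pool.Agent.W876.Spl.Fact

variable {K J : Type}

/-- the vertices of a condition -/
noncomputable def ptsF (p : FF K J) : Finset K := p.preimage pt (fun _ _ _ _ h => Fact.pt.inj h)

theorem mem_ptsF {p : FF K J} {z : K} : z ∈ ptsF p ↔ pt z ∈ p := Finset.mem_preimage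

/-- the indices of a condition -/
noncomputable def ixs (p : FF K J) : Finset J := p.preimage ix (fun _ _ _ _ h => Fact.ix.inj h)

theorem mem_ixs {p : FF K J} {z : J} : z ∈ ixs p ↔ ix z ∈ p := Finset.mem_preimage

/-- the pairs decided by a condition -/
noncomputable def eds (p : FF K J) : Finset (Sym2 K) :=
  p.preimage (fun e => ed e true) (fun _ _ _ _ h => (Fact.ed.inj h).1) ∪
    p.preimage (fun e => ed e false) (fun _ _ _ _ h => (Fact.ed.inj h).1)

theorem mem_eds {p : FF K J} {e : Sym2 K} {b : Bool} (h : ed e b ∈ p) : e ∈ eds p := by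
  unfold eds
  cases b
  · exact Finset.mem_union_right _ (Finset.mem_preimage.2 h)
  · exact Finset.mem_union_left _ (Finset.mem_preimage.2 h)

theorem ed_code {p : FF K J} (hp : Base p) {e : Sym2 K} {b : Bool} (h : ed e b ∈ p) :
    decide (ed e true ∈ p) = b := by
  cases b
  · rw [decide_eq_false_iff_not]
    intro h'
    exact absurd (hp.uniq e false true h h') (by decide)
  · rw [decide_eq_true_iff]
    exact h

theorem ed_coh {p q : FF K J} (hp : Base p) (hq : Base q)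
    (h : ∀ e ∈ eds p, e ∈ eds q → decide (ed e true ∈ p) = decide (ed e true ∈ q)) (e : Sym2 K)
    (b b' : Bool) (h1 : ed e b ∈ p) (h2 : ed e b' ∈ q) : b = b' := by
  rw [← ed_code hp h1, ← ed_code hq h2]
  exact h e (mem_eds h1) (mem_eds h2)

/-- the piece of a vertex -/
noncomputable def colr (p : FF K J) (k : J) (z : K) : Option (Bool × ℕ) :=
  if h : ∃ an : Bool × ℕ, co k z an.1 an.2 ∈ p then some h.choose else none

variable [LinearOrder J] [WellFoundedLT J] {U : Ultrafilter K} {bk : J → Sym2 K → Set (FF K J)}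

theorem colr_eq {p : FF K J} (hp : Valid U bk p) {k : J} {z : K} {a : Bool} {n : ℕ} :
    colr p k z = some (a, n) ↔ co k z a n ∈ p := by
  unfold colr
  constructor
  · intro h
    by_cases hex : ∃ an : Bool × ℕ, co k z an.1 an.2 ∈ p
    · rw [dif_pos hex] at h
      have h1 := hex.choose_spec
      rw [Option.some.inj h] at h1
      exact h1
    · rw [dif_neg hex] at h
      cases h
  · intro h
    have hex : ∃ an : Bool × ℕ, co k z an.1 an.2 ∈ p := ⟨(a, n), h⟩
    rw [dif_pos hex]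
    congr 1
    have h1 := hex.choose_spec
    obtain ⟨h2, h3⟩ := (hp.at_ k).uniq z _ _ _ _ h1 h
    exact Prod.ext h2 h3

theorem transfer {p q : FF K J} (hp : Valid U bk p) (hq : Valid U bk q) {k : J} {z : K}
    {a : Bool} {n : ℕ} (h : colr p k z = colr q k z) (h1 : co k z a n ∈ p) : co k z a n ∈ q := by
  rw [← colr_eq hq, ← h, colr_eq hp]
  exact h1

/-- every uncountable family contains two compatible members, even without new edges -/
def Lin (U : Ultrafilter K) (bk : J → Sym2 K → Set (FF K J)) (t : Set J) : Prop :=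
  ∀ (Y : Type) (f : Y → FF K J), ¬ Countable Y → (∀ y, f y ∈ CT U bk t) →
    ∃ y y', y ≠ y' ∧ ∃ r ∈ CT U bk t, f y ⊆ r ∧ f y' ⊆ r ∧
      ∀ u v, pt u ∈ f y → pt u ∉ f y' → pt v ∈ f y' → pt v ∉ f y → ed s(u, v) false ∈ r

/-- in every large set there are two vertices which can be joined by a single edge -/
def Edg (U : Ultrafilter K) (bk : J → Sym2 K → Set (FF K J)) (t : Set J) : Prop :=
  ∀ (f : K → FF K J), ∀ X ∈ U, (∀ x ∈ X, f x ∈ CT U bk t ∧ pt x ∈ f x) →
    ∃ x ∈ X, ∃ y ∈ X, x ≠ y ∧ ∃ r ∈ CT U bk t, Amal (f x) (f y) x y r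

theorem exists_ne {Y : Type} {X : Set Y} (hX : ¬ X.Countable) : ∃ y ∈ X, ∃ y' ∈ X, y ≠ y' := by
  by_contra hcon
  push Not at hcon
  exact hX (Set.Subsingleton.countable fun y hy y' hy' => hcon y hy y' hy')

theorem lin_empty : Lin U bk ∅ := by
  intro Y f hY hf
  have huniv : ¬ (Set.univ : Set Y).Countable := by
    rw [Set.countable_univ_iff]
    exact hY
  obtain ⟨X, -, hX, hc⟩ := code_unc (V := Bool) (fun y => eds (f y))
    (fun y e => decide (ed e true ∈ f y)) Set.univ huniv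
  obtain ⟨y, hy, y', hy', hne⟩ := exists_ne hX
  obtain ⟨r, hr, h1, h2, h3⟩ := base_amal (hf y) (hf y')
    (ed_coh (hf y).1.base (hf y').1.base fun e he he' => hc y hy y' hy' e he he') (fun _ => false)
  exact ⟨y, y', hne, r, hr, h1, h2, h3⟩

theorem edg_empty (hU : Big U) : Edg U bk ∅ := by
  intro f X hX hf
  obtain ⟨X1, hX1, hX1X, hc1⟩ := hU.code (V := Bool) (fun y => eds (f y))
    (fun y e => decide (ed e true ∈ f y)) hX
  obtain ⟨X2, hX2, hX21, hc2⟩ := hU.code (V := Bool) (fun y => ptsF (f y))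
    (fun y z => decide (z = y)) hX1
  obtain ⟨x, hx, y, hy, hne⟩ := hU.exists_two hX2
  have hx1 := hX21 hx
  have hy1 := hX21 hy
  have hfx := hf x (hX1X hx1)
  have hfy := hf y (hX1X hy1)
  have hxy : pt x ∉ f y := by
    intro h
    have := hc2 x hx y hy x (mem_ptsF.2 hfx.2) (mem_ptsF.2 h)
    simp [hne] at this
  have hyx : pt y ∉ f x := by
    intro h
    have := hc2 y hy x hx y (mem_ptsF.2 hfy.2) (mem_ptsF.2 h)
    simp [Ne.symm hne] at this
  obtain ⟨r, hr, h1, h2, h3⟩ := base_amal hfx.1 hfy.1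
    (ed_coh hfx.1.1.base hfy.1.1.base fun e he he' => hc1 x hx1 y hy1 e he he')
    (fun e => decide (e = s(x, y)))
  refine ⟨x, hX1X hx1, y, hX1X hy1, hne, r, hr, h1, h2, hfx.2, hxy, hfy.2, hyx, ?_, ?_⟩
  · have := h3 x y hfx.2 hxy hfy.2 hyx
    simpa using this
  · intro u v hu hu' hv hv' huv
    have := h3 u v hu hu' hv hv'
    have h4 : ¬ s(u, v) = s(x, y) := by
      intro h
      rw [Sym2.eq_iff] at h
      rcases h with ⟨rfl, rfl⟩ | ⟨rfl, rfl⟩
      · rcases huv with h | h <;> exact h rfl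
      · exact hu' hfy.2
    rwa [decide_eq_false h4] at this

theorem exists_cut {t : Set J} (ht : IsLowerSet t) (R : Finset J) :
    ∃ t0 : Set J, t0 ⊆ t ∧ IsLowerSet t0 ∧ ((t0 = ∅ ∧ ∀ k ∈ R, k ∉ t) ∨
      ∃ k0 ∈ t, t0 = Set.Iio k0 ∧ ∀ k ∈ R, k ∈ t → k ≤ k0) := by
  by_cases h : (R.filter (· ∈ t)).Nonempty
  · have h1 := Finset.max'_mem _ h
    rw [Finset.mem_filter] at h1
    refine ⟨Set.Iio ((R.filter (· ∈ t)).max' h), fun k hk => ht (le_of_lt hk) h1.2,
      isLowerSet_Iio _, Or.inr ⟨_, h1.2, rfl, fun k hk hkt => ?_⟩⟩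
    exact Finset.le_max' _ _ (Finset.mem_filter.2 ⟨hk, hkt⟩)
  · refine ⟨∅, Set.empty_subset _, isLower_empty, Or.inl ⟨rfl, fun k hk hkt => ?_⟩⟩
    exact h ⟨k, Finset.mem_filter.2 ⟨hk, hkt⟩⟩

theorem lin_step {t : Set J} (ht : IsLowerSet t) (h : ∀ k ∈ t, Lin U bk (Set.Iio k)) :
    Lin U bk t := by
  intro Y f hY hf
  have huniv : ¬ (Set.univ : Set Y).Countable := by
    rw [Set.countable_univ_iff]
    exact hY
  obtain ⟨Y1, R, -, hY1, -, hR⟩ :=
    Pool.Agent.Helper126.delta_system (fun y => ixs (f y)) Set.univ huniv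
  obtain ⟨Y2, hY21, hY2, hc⟩ := code_unc (V := R → Option (Bool × ℕ)) (fun y => ptsF (f y))
    (fun y z k => colr (f y) k z) Y1 hY1
  obtain ⟨t0, ht0t, ht0, hcut⟩ := exists_cut ht R
  have hL : Lin U bk t0 := by
    rcases hcut with ⟨rfl, _⟩ | ⟨k0, hk0, rfl, _⟩
    · exact lin_empty
    · exact h k0 hk0
  have hY2' : ¬ Countable Y2 := hY2
  obtain ⟨y, y', hne, r, hr, h1, h2, h3⟩ := hL Y2 (fun y => res t0 (f y)) hY2'
    (fun y => res_valid ht0 (hf y).1)
  have hne' : y.1 ≠ y'.1 := fun h => hne (Subtype.ext h)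
  have hk : ∀ k, ix k ∈ f y → ix k ∈ f y' → k ∈ R := fun k hk hk' =>
    hR _ (hY21 y.2) _ (hY21 y'.2) hne' k (mem_ixs.2 hk) (mem_ixs.2 hk')
  have hp := (hf y).1
  have hq := (hf y').1
  have hcol : ∀ k ∈ R, ∀ z, pt z ∈ f y → pt z ∈ f y' → colr (f y) k z = colr (f y') k z := by
    intro k hkR z hz hz'
    exact congrFun (hc _ y.2 _ y'.2 z (mem_ptsF.2 hz) (mem_ptsF.2 hz')) ⟨k, hkR⟩
  have hval : Valid U bk (r ∪ f y ∪ f y') := by
    refine glue hp hq hr h1 h2 ?_ ?_
    · intro k _ z a n a' n' hz hz'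
      have hkR := hk k (hp.base.cix _ _ _ _ hz) (hq.base.cix _ _ _ _ hz')
      have := transfer hp hq (hcol k hkR z (hp.base.cpt _ _ _ _ hz) (hq.base.cpt _ _ _ _ hz')) hz
      exact (hq.at_ k).uniq _ _ _ _ _ this hz'
    · intro k _ u v a n huv hu hv
      have hkR := hk k (hp.base.cix _ _ _ _ hu) (hq.base.cix _ _ _ _ hv)
      have hpu := hp.base.cpt _ _ _ _ hu
      have hqv := hq.base.cpt _ _ _ _ hv
      by_cases hqu : pt u ∈ f y'
      · have := transfer hp hq (hcol k hkR u hpu hqu) hu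
        rcases (hq.at_ k).pair u v a n huv this hv with h4 | ⟨r', hr', h4⟩
        · exact Or.inl (h2 (ed_res.2 h4))
        · exact Or.inr ⟨r', hr', h4.trans Finset.subset_union_right⟩
      by_cases hpv : pt v ∈ f y
      · have := transfer hq hp (hcol k hkR v hpv hqv).symm hv
        rcases (hp.at_ k).pair u v a n huv hu this with h4 | ⟨r', hr', h4⟩
        · exact Or.inl (h1 (ed_res.2 h4))
        · exact Or.inr ⟨r', hr', h4.trans
            (Finset.subset_union_right.trans Finset.subset_union_left)⟩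
      exact Or.inl (h3 u v (pt_res.2 hpu) (fun h => hqu (pt_res.1 h)) (pt_res.2 hqv)
        (fun h => hpv (pt_res.1 h)))
  refine ⟨y, y', hne', r ∪ f y ∪ f y', ⟨hval, ?_⟩, ?_, ?_, ?_⟩
  · intro i hi
    rw [Finset.mem_union, Finset.mem_union] at hi
    rcases hi with (hi | hi) | hi
    · exact ht0t (hr.2 i hi)
    · exact (hf y).2 i hi
    · exact (hf y').2 i hi
  · exact Finset.subset_union_right.trans Finset.subset_union_left
  · exact Finset.subset_union_right
  · intro u v h4 h5 h6 h7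
    refine Finset.mem_union_left _ (Finset.mem_union_left _ ?_)
    exact h3 u v (pt_res.2 h4) (fun h => h5 (pt_res.1 h)) (pt_res.2 h6) (fun h => h7 (pt_res.1 h))

theorem finish {t t0 : Set J} (ht0t : t0 ⊆ t) {p q r : FF K J} {x y : K}
    (hp : p ∈ CT U bk t) (hq : q ∈ CT U bk t) (hr : r ∈ CT U bk t0)
    (ha : Amal (res t0 p) (res t0 q) x y r)
    (hk : ∀ k ∉ t0, ix k ∈ p → ix k ∈ q →
      (∀ z, pt z ∈ p → pt z ∈ q → colr p k z = colr q k z) ∧
      ∀ a n, co k x a n ∈ p → co k y a n ∈ q →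
        ∃ r' ∈ sts (Cond U bk k) (bk k) s(x, y) (!a), r' ⊆ r) :
    r ∪ p ∪ q ∈ CT U bk t ∧ Amal p q x y (r ∪ p ∪ q) := by
  have hrs : r ⊆ r ∪ p ∪ q := Finset.subset_union_left.trans Finset.subset_union_left
  refine ⟨⟨?_, ?_⟩, ?_⟩
  · refine glue hp.1 hq.1 hr ha.hl ha.hr ?_ ?_
    · intro k hkt z a n a' n' hz hz'
      obtain ⟨h1, _⟩ := hk k hkt (hp.1.base.cix _ _ _ _ hz) (hq.1.base.cix _ _ _ _ hz')
      have := transfer hp.1 hq.1 (h1 z (hp.1.base.cpt _ _ _ _ hz) (hq.1.base.cpt _ _ _ _ hz')) hz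
      exact (hq.1.at_ k).uniq _ _ _ _ _ this hz'
    · intro k hkt u v a n huv hu hv
      obtain ⟨h1, h2⟩ := hk k hkt (hp.1.base.cix _ _ _ _ hu) (hq.1.base.cix _ _ _ _ hv)
      have hpu := hp.1.base.cpt _ _ _ _ hu
      have hqv := hq.1.base.cpt _ _ _ _ hv
      by_cases hqu : pt u ∈ q
      · have := transfer hp.1 hq.1 (h1 u hpu hqu) hu
        rcases (hq.1.at_ k).pair u v a n huv this hv with h4 | ⟨r', hr', h4⟩
        · exact Or.inl (ha.hr (ed_res.2 h4))
        · exact Or.inr ⟨r', hr', h4.trans Finset.subset_union_right⟩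
      by_cases hpv : pt v ∈ p
      · have := transfer hq.1 hp.1 (h1 v hpv hqv).symm hv
        rcases (hp.1.at_ k).pair u v a n huv hu this with h4 | ⟨r', hr', h4⟩
        · exact Or.inl (ha.hl (ed_res.2 h4))
        · exact Or.inr ⟨r', hr', h4.trans
            (Finset.subset_union_right.trans Finset.subset_union_left)⟩
      by_cases hxy : u = x ∧ v = y
      · obtain ⟨rfl, rfl⟩ := hxy
        obtain ⟨r', hr', h4⟩ := h2 a n hu hv
        exact Or.inr ⟨r', hr', h4.trans hrs⟩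
      · refine Or.inl (ha.oth u v (pt_res.2 hpu) (fun h => hqu (pt_res.1 h)) (pt_res.2 hqv)
          (fun h => hpv (pt_res.1 h)) ?_)
        by_contra hcon
        push Not at hcon
        exact hxy hcon
  · intro i hi
    rw [Finset.mem_union, Finset.mem_union] at hi
    rcases hi with (hi | hi) | hi
    · exact ht0t (hr.2 i hi)
    · exact hp.2 i hi
    · exact hq.2 i hi
  · refine ⟨Finset.subset_union_right.trans Finset.subset_union_left, Finset.subset_union_right,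
      pt_res.1 ha.hx, fun h => ha.hx' (pt_res.2 h), pt_res.1 ha.hy, fun h => ha.hy' (pt_res.2 h),
      hrs ha.he, ?_⟩
    intro u v h4 h5 h6 h7 h8
    exact hrs (ha.oth u v (pt_res.2 h4) (fun h => h5 (pt_res.1 h)) (pt_res.2 h6)
      (fun h => h7 (pt_res.1 h)) h8)

theorem edg_step (hU : Big U) {t : Set J} (ht : IsLowerSet t)
    (h : ∀ k ∈ t, Edg U bk (Set.Iio k))
    (hg : ∀ k ∈ t, GoodAb U (Cond U bk k) (bk k) (chooseAb U (Cond U bk k) (bk k))) :
    Edg U bk t := by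
  intro f X hX hf
  obtain ⟨X1, hX1, R, hR⟩ := hU.ds (fun y => ixs (f y))
  obtain ⟨X2, hX2, hX2s, hc⟩ := hU.code (V := R → Option (Bool × ℕ)) (fun y => ptsF (f y))
    (fun y z k => colr (f y) k z) (Filter.inter_mem hX hX1)
  have hfv : ∀ x ∈ X2, f x ∈ CT U bk t ∧ pt x ∈ f x := fun x hx => hf x (hX2s hx).1
  have hk : ∀ x ∈ X2, ∀ y ∈ X2, x ≠ y → ∀ k, ix k ∈ f x → ix k ∈ f y → k ∈ R :=
    fun x hx y hy hne k hk hk' => hR _ (hX2s hx).2 _ (hX2s hy).2 hne k (mem_ixs.2 hk)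
      (mem_ixs.2 hk')
  have hcol : ∀ x ∈ X2, ∀ y ∈ X2, ∀ k ∈ R, ∀ z, pt z ∈ f x → pt z ∈ f y →
      colr (f x) k z = colr (f y) k z := by
    intro x hx y hy k hkR z hz hz'
    exact congrFun (hc _ hx _ hy z (mem_ptsF.2 hz) (mem_ptsF.2 hz')) ⟨k, hkR⟩
  obtain ⟨t0, ht0t, ht0, hcut⟩ := exists_cut ht R
  rcases hcut with ⟨rfl, hno⟩ | ⟨k0, hk0, rfl, hmax⟩
  · obtain ⟨x, hx, y, hy, hne, r, hr, ha⟩ := edg_empty hU (fun x => res ∅ (f x)) X2 hX2
      (fun x hx => ⟨res_valid isLower_empty (hfv x hx).1.1, pt_res.2 (hfv x hx).2⟩)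
    obtain ⟨h1, h2⟩ := finish (Set.empty_subset t) (hfv x hx).1 (hfv y hy).1 hr ha
      (fun k _ h1 h2 => absurd ((hfv x hx).1.2 k h1) (hno k (hk x hx y hy hne k h1 h2)))
    exact ⟨x, (hX2s hx).1, y, (hX2s hy).1, hne, _, h1, h2⟩
  · have hk0' : ∀ x ∈ X2, ∀ y ∈ X2, x ≠ y → ∀ k ∉ Set.Iio k0, ix k ∈ f x → ix k ∈ f y →
        k ∈ R ∧ k = k0 := by
      intro x hx y hy hne k hkk h1 h2
      have h3 := hk x hx y hy hne k h1 h2
      exact ⟨h3, le_antisymm (hmax k h3 ((hfv x hx).1.2 k h1)) (not_lt.1 hkk)⟩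
    by_cases hdec : {x | x ∈ X2 ∧ ∃ a n, co k0 x a n ∈ f x} ∈ U
    · obtain ⟨a, hX3⟩ := hU.exists_mem hdec (fun (a : Bool) x => ∃ n, co k0 x a n ∈ f x)
        (fun x hx => hx.2)
      obtain ⟨x, hx, y, hy, hne, r, hr, ha, r', hr', hrr⟩ := (hg k0 hk0).step
        (fun x => res (Set.Iio k0) (f x)) a _ hX3 (by
          rintro x ⟨⟨hx, _⟩, n, hn⟩
          refine ⟨by rw [Cond_eq]; exact res_valid (isLowerSet_Iio k0) (hfv x hx).1.1,
            pt_res.2 (hfv x hx).2, ?_⟩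
          obtain ⟨r, hr, hrx⟩ := ((hfv x hx).1.1.at_ k0).dec x a n hn
          exact ⟨r, hr, sub_res_of_Cond (isLowerSet_Iio k0) (Or.inr subset_rfl)
            (chooseAb_sub hr) hrx⟩)
      have hx2 := hx.1.1
      have hy2 := hy.1.1
      obtain ⟨n, hn⟩ := hx.2
      rw [Cond_eq] at hr
      obtain ⟨h1, h2⟩ := finish ht0t (hfv x hx2).1 (hfv y hy2).1 hr ha
        (fun k hkt h1 h2 => by
          obtain ⟨h3, rfl⟩ := hk0' x hx2 y hy2 hne k hkt h1 h2
          refine ⟨fun z => hcol x hx2 y hy2 k h3 z, fun a' n' h4 _ => ?_⟩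
          obtain ⟨rfl, _⟩ := ((hfv x hx2).1.1.at_ k).uniq x a n a' n' hn h4
          exact ⟨r', hr', hrr⟩)
      exact ⟨x, (hX2s hx2).1, y, (hX2s hy2).1, hne, _, h1, h2⟩
    · have hX3 : X2 ∩ {x | x ∈ X2 ∧ ∃ a n, co k0 x a n ∈ f x}ᶜ ∈ U :=
        Filter.inter_mem hX2 (Ultrafilter.compl_mem_iff_notMem.2 hdec)
      obtain ⟨x, hx, y, hy, hne, r, hr, ha⟩ := h k0 hk0 (fun x => res (Set.Iio k0) (f x)) _ hX3
        (fun x hx => ⟨res_valid (isLowerSet_Iio k0) (hfv x hx.1).1.1, pt_res.2 (hfv x hx.1).2⟩)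
      have hx2 := hx.1
      have hy2 := hy.1
      obtain ⟨h1, h2⟩ := finish ht0t (hfv x hx2).1 (hfv y hy2).1 hr ha
        (fun k hkt h1 h2 => by
          obtain ⟨h3, rfl⟩ := hk0' x hx2 y hy2 hne k hkt h1 h2
          refine ⟨fun z => hcol x hx2 y hy2 k h3 z, fun a' n' h4 _ => ?_⟩
          exact absurd ⟨hx2, a', n', h4⟩ hx.2)
      exact ⟨x, (hX2s hx2).1, y, (hX2s hy2).1, hne, _, h1, h2⟩

/-! ### The choice of the types -/

/-- compatibility in `C` -/
def Comp (C : Set (FF K J)) (p q : FF K J) : Prop := ∃ r ∈ C, p ⊆ r ∧ q ⊆ r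

/-- no pair of points can be joined by a single edge in the part `true` -/
def Poor (U : Ultrafilter K) (C : Set (FF K J)) (nu : Sym2 K → Set (FF K J))
    (f : K → FF K J) : Prop :=
  ∃ X ∈ U, (∀ x ∈ X, f x ∈ C ∧ pt x ∈ f x) ∧ ∀ x ∈ X, ∀ y ∈ X, x ≠ y → ∀ r ∈ C,
    Amal (f x) (f y) x y r → ∀ s ∈ nu s(x, y), ¬ s ⊆ r

theorem exists_good (hU : Big U) {i : J} (hL : Lin U bk (Set.Iio i))
    (hE : Edg U bk (Set.Iio i)) : ∃ ab, GoodAb U (Cond U bk i) (bk i) ab := by
  set C := Cond U bk i with hC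
  set nu := bk i with hnu
  have hCC : C = CT U bk (Set.Iio i) := Cond_eq i
  obtain ⟨A, hA⟩ := zorn_subset {A : Set (K → FF K J) | (∀ f ∈ A, Poor U C nu f) ∧
      ∀ f ∈ A, ∀ f' ∈ A, f ≠ f' → {x | ¬ Comp C (f x) (f' x)} ∈ U}
    (by
      intro c hc hchain
      refine ⟨⋃₀ c, ⟨?_, ?_⟩, fun s hs => Set.subset_sUnion_of_mem hs⟩
      · rintro f ⟨s, hs, hf⟩
        exact (hc hs).1 f hf
      · rintro f ⟨s, hs, hf⟩ f' ⟨s', hs', hf'⟩ hne
        rcases hchain.total hs hs' with h | h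
        · exact (hc hs').2 f (h hf) f' hf' hne
        · exact (hc hs).2 f hf f' (h hf') hne)
  have hApoor := hA.prop.1
  have hApair := hA.prop.2
  have hAcount : A.Countable := by
    by_contra hcon
    have h1 : ℵ_ 1 ≤ #A := by
      by_contra h
      push Not at h
      apply hcon
      rw [← le_aleph0_iff_set_countable]
      rw [← succ_aleph0, Order.lt_succ_iff] at h
      exact h
    obtain ⟨A', hA'A, hA'⟩ := (le_mk_iff_exists_subset).1 h1
    have hI : #(A' × A') ≤ ℵ_ 1 := by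
      rw [mk_prod, lift_id, hA']
      exact (mul_eq_self (aleph0_le_aleph 1)).le
    have h2 := hU.compl hI (fun ff => {x | ff.1.1 x ∈ C ∧ (ff.1 ≠ ff.2 →
        ¬ Comp C (ff.1.1 x) (ff.2.1 x))}) (by
      rintro ⟨f, f'⟩
      obtain ⟨X, hX, hX1, _⟩ := hApoor f.1 (hA'A f.2)
      by_cases hff : f = f'
      · subst hff
        exact Filter.mem_of_superset hX fun x hx => ⟨(hX1 x hx).1, fun h => absurd rfl h⟩
      · have h3 := hApair f.1 (hA'A f.2) f'.1 (hA'A f'.2) (fun h => hff (Subtype.ext h))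
        exact Filter.mem_of_superset (Filter.inter_mem hX h3)
          fun x hx => ⟨(hX1 x hx.1).1, fun _ => hx.2⟩)
    obtain ⟨x, hx⟩ := Ultrafilter.nonempty_of_mem h2
    rw [Set.mem_iInter] at hx
    have hunc : ¬ Countable A' := by
      intro hc
      have h4 : #A' ≤ ℵ₀ := mk_le_aleph0_iff.2 hc
      rw [hA'] at h4
      exact absurd h4 (not_le.2 aleph0_lt_aleph_one)
    obtain ⟨f, f', hne, r, hr, h5, h6, _⟩ := hL A' (fun f => f.1 x) hunc (fun f => by
      rw [← hCC]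
      exact (hx (f, f)).1)
    exact (hx (f, f')).2 hne ⟨r, by rw [hCC]; exact hr, h5, h6⟩
  have hAcount' : Countable A := hAcount
  refine ⟨fun z a => if a = true then {r | r ∈ C ∧ ∃ f ∈ A, f z ⊆ r} else
    {r | r ∈ C ∧ ∀ f ∈ A, ¬ Comp C (f z) r}, ?_, ?_, ?_⟩
  · intro z a r hr
    cases a
    · exact hr.1
    · exact hr.1
  · intro p hp z
    by_cases h : ∃ f ∈ A, Comp C (f z) p
    · obtain ⟨f, hf, r, hr, h1, h2⟩ := h
      exact ⟨r, hr, h2, true, r, ⟨hr, f, hf, h1⟩, subset_rfl⟩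
    · push Not at h
      exact ⟨p, hp, subset_rfl, false, p, ⟨hp, h⟩, subset_rfl⟩
  · intro f a X hX hf
    cases a with
    | true =>
      have h1 : ∀ x ∈ X, ∃ f' : A, f'.1 x ⊆ f x := by
        intro x hx
        obtain ⟨r, ⟨_, f', hf', h2⟩, h3⟩ := (hf x hx).2.2
        exact ⟨⟨f', hf'⟩, h2.trans h3⟩
      obtain ⟨⟨f', hf'⟩, hX1⟩ := hU.exists_mem hX (fun (f' : A) x => f'.1 x ⊆ f x) h1
      obtain ⟨X2, hX2, hX2a, hX2b⟩ := hApoor f' hf'
      obtain ⟨X3, hX3, hX3s, hc⟩ := hU.code (V := Bool) (fun y => ptsF (f y))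
        (fun y z => decide (pt z ∈ f' y)) (Filter.inter_mem hX1 hX2)
      obtain ⟨x, hx, y, hy, hne, r, hr, ha⟩ := hE f X3 hX3 (fun x hx => by
        rw [← hCC]
        exact ⟨(hf x (hX3s hx).1.1).1, (hf x (hX3s hx).1.1).2.1⟩)
      rw [← hCC] at hr
      have hfx : f' x ⊆ f x := (hX3s hx).1.2
      have hfy : f' y ⊆ f y := (hX3s hy).1.2
      have hcx : ∀ z, pt z ∈ f x → pt z ∈ f y → (pt z ∈ f' x ↔ pt z ∈ f' y) := by
        intro z h2 h3
        have := hc x hx y hy z (mem_ptsF.2 h2) (mem_ptsF.2 h3)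
        exact decide_eq_decide.1 this
      have ha' : ∀ r', r ⊆ r' → Amal (f' x) (f' y) x y r' := by
        intro r' hrr
        refine ⟨(hfx.trans ha.hl).trans hrr, (hfy.trans ha.hr).trans hrr,
          (hX2a x (hX3s hx).2).2, fun h => ha.hx' (hfy h), (hX2a y (hX3s hy).2).2,
          fun h => ha.hy' (hfx h), hrr ha.he, ?_⟩
        intro u v h2 h3 h4 h5 h6
        refine hrr (ha.oth u v (hfx h2) ?_ (hfy h4) ?_ h6)
        · intro h7
          exact h3 ((hcx u (hfx h2) h7).1 h2)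
        · intro h7
          exact h5 ((hcx v h7 (hfy h4)).2 h4)
      refine ⟨x, (hX3s hx).1.1, y, (hX3s hy).1.1, hne, r, hr, ha, r, ⟨hr, ?_⟩, subset_rfl⟩
      intro r' hr' hrr s hs hsr
      exact hX2b x (hX3s hx).2 y (hX3s hy).2 hne r' hr' (ha' r' hrr) s hs hsr
    | false =>
      have h1 : ∀ x ∈ X, ∀ f' ∈ A, ¬ Comp C (f' x) (f x) := by
        intro x hx f' hf' hcomp
        obtain ⟨r, ⟨_, h2⟩, h3⟩ := (hf x hx).2.2
        obtain ⟨r', hr', h4, h5⟩ := hcomp
        exact h2 f' hf' ⟨r', hr', h4, h3.trans h5⟩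
      have hnot : f ∉ A := by
        intro hfA
        obtain ⟨x, hx⟩ := Ultrafilter.nonempty_of_mem hX
        exact h1 x hx f hfA ⟨f x, (hf x hx).1, subset_rfl, subset_rfl⟩
      have hnp : ¬ Poor U C nu f := by
        intro hp
        have hmem : insert f A ∈ {A : Set (K → FF K J) | (∀ f ∈ A, Poor U C nu f) ∧
            ∀ f ∈ A, ∀ f' ∈ A, f ≠ f' → {x | ¬ Comp C (f x) (f' x)} ∈ U} := by
          refine ⟨?_, ?_⟩
          · rintro g (rfl | hg)
            · exact hp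
            · exact hApoor g hg
          · rintro g (rfl | hg) g' (rfl | hg') hne
            · exact absurd rfl hne
            · refine Filter.mem_of_superset hX fun x hx hcomp => ?_
              obtain ⟨r', hr', h4, h5⟩ := hcomp
              exact h1 x hx g' hg' ⟨r', hr', h5, h4⟩
            · exact Filter.mem_of_superset hX fun x hx => h1 x hx g hg
            · exact hApair g hg g' hg' hne
        exact hnot (hA.le_of_ge hmem (Set.subset_insert f A) (Set.mem_insert f A))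
      by_contra hcon
      push Not at hcon
      refine hnp ⟨X, hX, fun x hx => ⟨(hf x hx).1, (hf x hx).2.1⟩, ?_⟩
      intro x hx y hy hne r hr ha s hs hsr
      exact hcon x hx y hy hne r hr ha r ⟨hr, s, hs, hsr⟩ subset_rfl

theorem main (hU : Big U) (i : J) : Lin U bk (Set.Iio i) ∧ Edg U bk (Set.Iio i) ∧
    GoodAb U (Cond U bk i) (bk i) (chooseAb U (Cond U bk i) (bk i)) := by
  induction i using WellFoundedLT.induction with
  | ind i ih =>
    have h1 : Lin U bk (Set.Iio i) := lin_step (isLowerSet_Iio i) fun k hk => (ih k hk).1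
    have h2 : Edg U bk (Set.Iio i) := edg_step hU (isLowerSet_Iio i)
      (fun k hk => (ih k hk).2.1) (fun k hk => (ih k hk).2.2)
    exact ⟨h1, h2, chooseAb_good (exists_good hU h1 h2)⟩

theorem lin_univ (hU : Big U) : Lin U bk Set.univ :=
  lin_step isLowerSet_univ fun k _ => (main hU k).1

theorem edg_univ (hU : Big U) : Edg U bk Set.univ :=
  edg_step hU isLowerSet_univ (fun k _ => (main hU k).2.1) (fun k _ => (main hU k).2.2)

end Pool.Agent.W876.Spl
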