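import Mathlib
import Pool.Agent.W876.Spl.Ind
import Pool.Agent.W876.Spl.Defs

/-!
# The generic graph does not split
-/

namespace Pool.Agent.W876.Spl

open Cardinal Pool.Agent.Helper126.Sus.Forc Pool.Agent.W876.Two.Gen

open scoped Classical

set_option linter.unusedSectionVars false

open Pool.Agent.W876.Spl.Fact

/-! ### Bookkeeping -/

section

variable {κ : Cardinal.{0}}

/-- the length of the iteration -/
abbrev Len (κ : Cardinal.{0}) : Type := (2 ^ κ : Cardinal.{0}).ord.ToType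

theorem mk_Len : #(Len κ) = 2 ^ κ := by rw [mk_toType, card_ord]

theorem len_cof (hκ : ℵ₀ ≤ κ) (S : Set (Len κ)) (hS : #S ≤ κ) : ∃ b, ∀ s ∈ S, s < b := by
  by_contra hcon
  push Not at hcon
  have h1 : IsCofinal S := fun b => by
    obtain ⟨s, hs, hb⟩ := hcon b
    exact ⟨s, hs, hb⟩
  have h2 := Order.cof_le h1
  rw [Ordinal.cof_toType] at h2
  exact absurd (h2.trans hS) (not_le.2 (lt_cof_ord_power hκ
    (by exact_mod_cast Nat.one_lt_two)))

theorem len_Iic (hκ : ℵ₀ ≤ κ) (b : Len κ) : #(Set.Iic b) < #(Len κ) := by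
  have h1 : #(Set.Iio b) < #(Len κ) := Cardinal.mk_Iio_lt b (by simp)
  have h0 : ℵ₀ ≤ #(Len κ) := by
    rw [mk_Len]
    exact hκ.trans (cantor _).le
  rw [← Set.Iio_insert]
  refine (mk_insert_le).trans_lt ?_
  exact add_lt_of_lt h0 h1 (one_lt_aleph0.trans_le h0)

theorem mk_fact_le {K J : Type} {lam : Cardinal.{0}} (h0 : ℵ₀ ≤ lam) (hK : #K ≤ lam)
    (hJ : #J ≤ lam) : #(Fact K J) ≤ lam := by
  let f : Fact K J → (K ⊕ (Sym2 K × Bool)) ⊕ (J ⊕ (J × K × Bool × ℕ)) := fun φ => match φ with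
    | pt z => Sum.inl (Sum.inl z)
    | ed e b => Sum.inl (Sum.inr (e, b))
    | ix j => Sum.inr (Sum.inl j)
    | co j z a n => Sum.inr (Sum.inr (j, z, a, n))
  have hf : Function.Injective f := by
    intro φ ψ h
    cases φ <;> cases ψ <;> simp_all [f]
  refine (mk_le_of_injective hf).trans ?_
  have hmul : lam * lam = lam := mul_eq_self h0
  have hadd : lam + lam = lam := add_eq_self h0
  have hS : #(Sym2 K) ≤ lam := by
    refine (mk_le_of_surjective (f := fun x : K × K => s(x.1, x.2)) ?_).trans ?_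
    · intro e
      induction e using Sym2.ind with
      | h x y => exact ⟨(x, y), rfl⟩
    · rw [mk_prod, lift_id]
      exact (mul_le_mul' hK hK).trans hmul.le
  have hB : #Bool ≤ lam := by
    rw [mk_bool]
    exact (natCast_lt_aleph0 (n := 2)).le.trans h0
  have hN : #ℕ ≤ lam := by rw [mk_nat]; exact h0
  have h1 : #(Sym2 K × Bool) ≤ lam := by
    rw [mk_prod, lift_id, lift_id]
    exact (mul_le_mul' hS hB).trans hmul.le
  have h2 : #(Bool × ℕ) ≤ lam := by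
    rw [mk_prod, lift_id, lift_id]
    exact (mul_le_mul' hB hN).trans hmul.le
  have h3 : #(K × Bool × ℕ) ≤ lam := by
    rw [mk_prod, lift_id, lift_id]
    exact (mul_le_mul' hK h2).trans hmul.le
  have h4 : #(J × K × Bool × ℕ) ≤ lam := by
    rw [mk_prod, lift_id, lift_id]
    exact (mul_le_mul' hJ h3).trans hmul.le
  simp only [mk_sum, lift_id]
  calc #K + #(Sym2 K × Bool) + (#J + #(J × K × Bool × ℕ)) ≤ (lam + lam) + (lam + lam) :=
        add_le_add (add_le_add hK h1) (add_le_add hJ h4)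
    _ = lam := by rw [hadd, hadd]

theorem mk_FF_le {K J : Type} {lam : Cardinal.{0}} (h0 : ℵ₀ ≤ lam) (hK : #K ≤ lam)
    (hJ : #J ≤ lam) : #(FF K J) ≤ lam := by
  have h1 := mk_fact_le h0 hK hJ
  rcases finite_or_infinite (Fact K J) with h | h
  · have : Finite (FF K J) := inferInstance
    exact (mk_lt_aleph0.le).trans h0
  · rw [mk_finset_of_infinite]; exact h1

/-- countable sets are enumerated -/
theorem exists_enum {X : Type} {S : Set X} (hS : S.Countable) :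
    ∃ h : ℕ → Option X, ∀ x, x ∈ S ↔ ∃ n, h n = some x := by
  by_cases hne : S.Nonempty
  · obtain ⟨f, rfl⟩ := hS.exists_eq_range hne
    refine ⟨fun n => some (f n), fun x => ?_⟩
    simp
  · rw [Set.not_nonempty_iff_eq_empty] at hne
    subst hne
    exact ⟨fun _ => none, by simp⟩

theorem mk_arrow_le {A X : Type} (hκ : ℵ₀ ≤ κ) (hA : #A ≤ κ)
    (hX : #X ≤ 2 ^ κ) : #(A → X) ≤ 2 ^ κ := by
  rw [← power_def]
  calc #X ^ #A ≤ (2 ^ κ) ^ #A := power_le_power_right hX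
    _ = 2 ^ (κ * #A) := (power_mul).symm
    _ ≤ 2 ^ κ := power_le_power_left two_ne_zero ((mul_le_mul' le_rfl hA).trans
        (mul_eq_self hκ).le)

theorem mk_sym2_le {K : Type} (hκ : ℵ₀ ≤ κ) (hK : #K ≤ κ) : #(Sym2 K) ≤ κ := by
  refine (mk_le_of_surjective (f := fun x : K × K => s(x.1, x.2)) ?_).trans ?_
  · intro e
    induction e using Sym2.ind with
    | h x y => exact ⟨(x, y), rfl⟩
  · rw [mk_prod, lift_id]
    exact (mul_le_mul' hK hK).trans (mul_eq_self hκ).le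

/-- the bookkeeping function -/
theorem exists_book (hκ : ℵ₀ ≤ κ) {K : Type} (hK : #K ≤ κ) :
    ∃ g : Len κ → Sym2 K → Set (FF K (Len κ)),
      ∀ N : Sym2 K → Set (FF K (Len κ)), (∀ e, (N e).Countable) → ∀ b, ∃ j, b < j ∧ g j = N := by
  have hlam : κ ≤ 2 ^ κ := (cantor _).le
  have h0 : ℵ₀ ≤ 2 ^ κ := hκ.trans hlam
  have hR : #(FF K (Len κ)) ≤ 2 ^ κ := mk_FF_le h0 (hK.trans hlam) mk_Len.le
  have hO : #(Option (FF K (Len κ))) ≤ 2 ^ κ := by
    rw [mk_option]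
    exact (add_le_add hR (one_le_aleph0.trans h0)).trans (add_eq_self h0).le
  have hNat : #ℕ ≤ κ := by rw [mk_nat]; exact hκ
  have hNm : #(Len κ × (Sym2 K → ℕ → Option (FF K (Len κ)))) ≤ #(Len κ) := by
    rw [mk_prod, lift_id, lift_id, mk_Len]
    refine (mul_le_mul' le_rfl ?_).trans (mul_eq_self h0).le
    exact mk_arrow_le hκ (mk_sym2_le hκ hK) (mk_arrow_le hκ hNat hO)
  obtain ⟨F⟩ := hNm
  have hne : Nonempty (Len κ) := by
    rw [← mk_ne_zero_iff, mk_Len]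
    exact (aleph0_pos.trans_le h0).ne'
  let f := Function.invFun F
  have hf : ∀ N, f (F N) = N := Function.leftInverse_invFun F.injective
  refine ⟨fun j e => {r | ∃ n, (f j).2 e n = some r}, fun N hN b => ?_⟩
  choose h hh using fun e => exists_enum (hN e)
  have hbig : ∃ x, b < F (x, h) := by
    by_contra hcon
    push Not at hcon
    have h2 : #(Len κ) ≤ #(Set.Iic b) := by
      refine mk_le_of_injective (f := fun x => (⟨F (x, h), hcon x⟩ : Set.Iic b)) ?_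
      intro x y hxy
      have h3 : F (x, h) = F (y, h) := congrArg Subtype.val hxy
      exact (Prod.mk.inj (F.injective h3)).1
    exact absurd h2 (not_le.2 (len_Iic hκ b))
  obtain ⟨x, hx⟩ := hbig
  refine ⟨F (x, h), hx, ?_⟩
  funext e
  ext r
  rw [hh e r]
  simp only [hf, Set.mem_ofPred_eq]

end

/-! ### The notion of forcing -/

variable {K J : Type} [LinearOrder J] [WellFoundedLT J] {U : Ultrafilter K}
  {bk : J → Sym2 K → Set (FF K J)}

/-- the conditions -/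
def Cd (U : Ultrafilter K) (bk : J → Sym2 K → Set (FF K J)) : Type :=
  {p : FF K J // Valid U bk p}

instance : Preorder (Cd U bk) where
  le p q := q.1 ⊆ p.1
  le_refl p := Finset.Subset.refl _
  le_trans p q r h h' := Finset.Subset.trans h' h

theorem valid_empty : Valid U bk (∅ : FF K J) :=
  ⟨⟨by simp, by simp, by simp, by simp, by simp⟩, fun _ => ⟨by simp, by simp, by simp⟩⟩

instance : Nonempty (Cd U bk) := ⟨⟨∅, valid_empty⟩⟩

theorem cd_ccc (hU : Big U) : Ccc (Cd U bk) := by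
  intro Y f hY
  obtain ⟨y, y', hne, r, hr, h1, h2, _⟩ := lin_univ hU Y (fun y => (f y).1) hY
    (fun y => ⟨(f y).2, fun _ _ => trivial⟩)
  exact ⟨y, y', hne, ⟨r, hr.1⟩, h1, h2⟩

/-- the generic graph -/
def Gr (U : Ultrafilter K) (bk : J → Sym2 K → Set (FF K J)) (e : Sym2 K) : Set (Cd U bk) :=
  {p | ed e true ∈ p.1}

theorem exists_of_gr {e : Sym2 K} {p : Cd U bk} (h : p ∈ meets (Gr U bk e)) :
    ∃ q ≤ p, ed e true ∈ q.1 := by
  have hN : ∀ s ∈ Gr U bk e, ∀ r ≤ s, r ∈ Gr U bk e := by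
    intro s hs r hr
    exact (show s.1 ⊆ r.1 from hr) (show ed e true ∈ s.1 from hs)
  exact exists_of_meets hN h

theorem isGraph (p : Cd U bk) : p ∈ IsGraph (Gr U bk) := by
  intro x q _ hq
  obtain ⟨r, _, hr⟩ := exists_of_gr hq
  exact r.2.base.diag _ _ hr rfl

theorem uncChrom (hU : Big U) (p : Cd U bk) : p ∈ UncountablyChromatic (Gr U bk) := by
  intro c
  rw [mem_fimp]
  intro q _ hq
  refine ⟨q, le_rfl, mem_fex.2 fun q' hq' => ?_⟩
  choose f hf n hn using fun x => mem_fex.1 (hq.1 x) q' hq'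
  let g : K → Cd U bk := fun x => ⟨insert (pt x) (f x).1, add_pt (f x).2 x⟩
  have hg : ∀ x, g x ≤ f x := fun x => Finset.subset_insert _ _
  obtain ⟨m, hm⟩ := hU.const n Filter.univ_mem
  obtain ⟨x, hx, y, hy, _, r, hr, ha⟩ := edg_univ hU (fun x => (g x).1) _ hm (fun x _ =>
    ⟨⟨(g x).2, fun _ _ => trivial⟩, Finset.mem_insert_self _ _⟩)
  let r' : Cd U bk := ⟨r, hr.1⟩
  have h1 : r' ≤ f x := le_trans (show r' ≤ g x from ha.hl) (hg x)
  have h2 : r' ≤ f y := le_trans (show r' ≤ g y from ha.hr) (hg y)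
  refine ⟨r', h1.trans (hf x), m, mem_fex.2 fun s hs => ⟨s, le_rfl, x, mem_fex.2 fun s' hs' =>
    ⟨s', le_rfl, y, ?_, ?_, ?_⟩⟩⟩
  · exact meets_down (meets_of_mem (show r' ∈ Gr U bk s(x, y) from ha.he)) (hs'.trans hs)
  · have := meets_down (hn x) ((hs'.trans hs).trans h1)
    rwa [hx.2] at this
  · have := meets_down (hn y) ((hs'.trans hs).trans h2)
    rwa [hy.2] at this

/-- the number of a piece -/
def cd (a : Bool) (n : ℕ) : ℕ := 2 * n + (if a = true then 1 else 0)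

theorem cd_inj {a a' : Bool} {n n' : ℕ} (h : cd a n = cd a' n') : a = a' ∧ n = n' := by
  unfold cd at h
  cases a <;> cases a' <;> simp at h ⊢ <;> omega

/-- the generic partition number `j` -/
def pc (U : Ultrafilter K) (bk : J → Sym2 K → Set (FF K J)) (j : J) (x : K) (m : ℕ) :
    Set (Cd U bk) :=
  {p | ∃ a n, co j x a n ∈ p.1 ∧ m = cd a n}

theorem exists_of_pc {j : J} {x : K} {m : ℕ} {p : Cd U bk} (h : p ∈ meets (pc U bk j x m)) :
    ∃ q ≤ p, ∃ a n, co j x a n ∈ q.1 ∧ m = cd a n := by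
  have hN : ∀ s ∈ pc U bk j x m, ∀ r ≤ s, r ∈ pc U bk j x m := by
    intro s hs r hr
    obtain ⟨a, n, h1, h2⟩ := hs
    exact ⟨a, n, (show s.1 ⊆ r.1 from hr) h1, h2⟩
  exact exists_of_meets hN h

theorem pc_fun (hU : Big U) (j : J) (p : Cd U bk) : p ∈ IsCountablePartition (pc U bk j) := by
  constructor
  · intro x
    refine mem_fex.2 fun q _ => ?_
    obtain ⟨r, hr, h1, a, n, h2⟩ := add_co q.2 (z := x) (main hU j).2.2
    exact ⟨⟨r, hr⟩, h1, cd a n, meets_of_mem ⟨a, n, h2, rfl⟩⟩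
  · intro x m m'
    refine mem_fimp.2 fun q _ hq => ⟨q, le_rfl, ?_⟩
    obtain ⟨r, hr, a, n, h1, rfl⟩ := exists_of_pc hq.1
    obtain ⟨r', hr', a', n', h2, rfl⟩ := exists_of_pc (meets_down hq.2 hr)
    obtain ⟨rfl, rfl⟩ := (r'.2.at_ j).uniq _ _ _ _ _ (hr' h1) h2
    rfl

theorem notSplit {κ : Cardinal.{0}} (hκ : ℵ₀ ≤ κ) {K : Type} (hK : #K ≤ κ)
    {U : Ultrafilter K} (hU : Big U) {bk : Len κ → Sym2 K → Set (FF K (Len κ))}
    (hbk : ∀ N : Sym2 K → Set (FF K (Len κ)), (∀ e, (N e).Countable) → ∀ b, ∃ j, b < j ∧ bk j = N)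
    (D : Type) (hD : Nontrivial D) (p : Cd U bk) : p ∈ fnot (SplitsTo (Gr U bk) D) := by
  intro q _ hq
  obtain ⟨r, _, H, hpart, hsim⟩ := mem_fex.1 hq q le_rfl
  obtain ⟨d0, d1, hd⟩ := exists_pair_ne D
  choose A hA1 hA2 hA3 using fun e =>
    exists_antichain (cd_ccc hU) {s : Cd U bk | s ∈ meets (H d0 e)}
  let N : Sym2 K → Set (FF K (Len κ)) := fun e => Subtype.val '' A e
  have hN : ∀ e, (N e).Countable := fun e => (hA2 e).image _
  let S : Set (Len κ) := ⋃ e : Sym2 K, ⋃ s : N e, (ixs s.1 : Set (Len κ))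
  have hS : #S ≤ κ := by
    have h1 : ∀ e : Sym2 K, #(⋃ s : N e, (ixs s.1 : Set (Len κ)) : Set (Len κ)) ≤ κ := by
      intro e
      have : Countable (N e) := hN e
      have h2 : (⋃ s : N e, (ixs s.1 : Set (Len κ)) : Set (Len κ)).Countable :=
        Set.countable_iUnion fun s => Finset.countable_toSet _
      exact (h2.le_aleph0).trans hκ
    refine (mk_iUnion_le_sum_mk).trans ?_
    refine (Cardinal.sum_le_sum _ (fun _ => κ) h1).trans ?_
    rw [Cardinal.sum_const']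
    exact (mul_le_mul' (mk_sym2_le hκ hK) le_rfl).trans (mul_eq_self hκ).le
  obtain ⟨b, hb⟩ := len_cof hκ S hS
  obtain ⟨j, hbj, hj⟩ := hbk N hN b
  have hix : ∀ e, ∀ s ∈ N e, ∀ i, ix i ∈ s → i < j := by
    intro e s hs i hi
    refine (hb i ?_).trans hbj
    exact Set.mem_iUnion.2 ⟨e, Set.mem_iUnion.2 ⟨⟨s, hs⟩, mem_ixs.2 hi⟩⟩
  -- edges of the parts are edges
  have hedge : ∀ d e (s : Cd U bk), s ≤ r → s ∈ meets (H d e) → ∃ s' ≤ s, ed e true ∈ s'.1 := by
    intro d e s hs h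
    obtain ⟨s', hs', h'⟩ := mem_fimp.1 (hpart.1 d e) s hs h
    obtain ⟨s'', hs'', h''⟩ := exists_of_gr h'
    exact ⟨s'', hs''.trans hs', h''⟩
  have hno : ∀ d e (s : Cd U bk), s ≤ r → s ∈ meets (H d e) → ed e false ∉ s.1 := by
    intro d e s hs h hf
    obtain ⟨s', hs', h'⟩ := hedge d e s hs h
    exact absurd (s'.2.base.uniq e true false h' (hs' hf)) (by decide)
  have hndiag : ∀ d e (s : Cd U bk), s ≤ r → s ∈ meets (H d e) → ¬ e.IsDiag := by
    intro d e s hs h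
    obtain ⟨s', hs', h'⟩ := hedge d e s hs h
    exact s'.2.base.diag e true h'
  obtain ⟨r1, hr1, m, hm⟩ : ∃ r1 ≤ r, ∃ m, r1 ∈ fall fun d => PieceContains (H d) (pc U bk j) m := by
    obtain ⟨r', hr', h⟩ := mem_fimp.1 (hsim (pc U bk j)) r le_rfl (pc_fun hU j r)
    obtain ⟨r1, hr1, m, hm⟩ := mem_fex.1 h r' le_rfl
    exact ⟨r1, hr1.trans hr', m, hm⟩
  have hget : ∀ d (s : Cd U bk), s ≤ r1 → ∃ s' ≤ s, ∃ x y a n, s' ∈ meets (H d s(x, y)) ∧
      co j x a n ∈ s'.1 ∧ co j y a n ∈ s'.1 ∧ m = cd a n := by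
    intro d s hs
    obtain ⟨s1, hs1, x, h1⟩ := mem_fex.1 (hm d) s hs
    obtain ⟨s2, hs2, y, h2, h3, h4⟩ := mem_fex.1 h1 s1 le_rfl
    obtain ⟨s3, hs3, a, n, h5, h6⟩ := exists_of_pc (meets_down h3 le_rfl)
    obtain ⟨s4, hs4, a', n', h7, h8⟩ := exists_of_pc (meets_down h4 hs3)
    obtain ⟨rfl, rfl⟩ := cd_inj (h6.symm.trans h8)
    exact ⟨s4, ((hs4.trans hs3).trans hs2).trans hs1, x, y, a, n,
      meets_down h2 (hs4.trans hs3), hs4 h5, h7, h6⟩
  obtain ⟨s0, hs0, x0, y0, a0, n0, h0H, h0x, h0y, h0m⟩ := hget d0 r1 le_rfl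
  obtain ⟨s1, hs1, x1, y1, a1, n1, h1H, h1x, h1y, h1m⟩ := hget d1 s0 hs0
  obtain ⟨rfl, rfl⟩ := cd_inj (h0m.symm.trans h1m)
  have hs0r : s0 ≤ r := hs0.trans hr1
  have hs1r : s1 ≤ r := hs1.trans hs0r
  cases a0 with
  | true =>
    have hne : x0 ≠ y0 := by
      rintro rfl
      exact hndiag d0 _ s0 hs0r h0H rfl
    rcases (s0.2.at_ j).pair x0 y0 true n0 hne h0x h0y with h | ⟨r', hr', h⟩
    · exact hno d0 _ s0 hs0r h0H h
    · obtain ⟨hr'C, hr'2⟩ := hr'
      obtain ⟨a, ha, s, hsa, hs⟩ := hA3 s(x0, y0) s0 h0H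
      have hCs : res (Set.Iio j) s.1 ∈ Cond U bk j := by
        rw [Cond_eq]
        exact res_valid (isLowerSet_Iio j) s.2
      refine hr'2 _ hCs (sub_res_of_Cond (isLowerSet_Iio j) (Or.inr subset_rfl) hr'C
        (h.trans hs)) a.1 (by rw [hj]; exact ⟨a, ha, rfl⟩) ?_
      exact sub_res (fun i hi => hix s(x0, y0) a.1 ⟨a, ha, rfl⟩ i hi) a.2.base hsa
  | false =>
    have hne : x1 ≠ y1 := by
      rintro rfl
      exact hndiag d1 _ s1 hs1r h1H rfl
    rcases (s1.2.at_ j).pair x1 y1 false n0 hne h1x h1y with h | ⟨r', hr', h⟩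
    · exact hno d1 _ s1 hs1r h1H h
    · obtain ⟨hr'C, t, ht, htr⟩ := hr'
      rw [hj] at ht
      obtain ⟨a, ha, rfl⟩ := ht
      have h1 : a ∈ meets (H d0 s(x1, y1)) := hA1 _ ha
      have h2 : s1 ≤ a := htr.trans h
      exact hpart.2.2 d0 d1 hd s(x1, y1) s1 hs1r ⟨meets_down h1 h2, h1H⟩

/-- **Main theorem.** -/
theorem exists_forcing (κ : Cardinal.{0}) (hκ : IsMeasurable κ) :
    ∃ (P : Type) (_ : Preorder P), Nonempty P ∧ CCC P ∧ ∀ p : P,
      p ∈ CardinalsPreserved P ∧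
      p ∈ fex fun E : Sym2 κ.ord.ToType → Set P =>
        fand (IsGraph E) (fand (UncountablyChromatic E)
          (fall fun D : Type => fall fun _ : Nontrivial D => fnot (SplitsTo E D))) := by
  obtain ⟨_, U, hU⟩ := exists_big κ hκ
  have hK : #κ.ord.ToType ≤ κ := by rw [mk_toType, card_ord]
  obtain ⟨bk, hbk⟩ := exists_book hκ.1.le hK
  refine ⟨Cd U bk, inferInstance, inferInstance, CCC_of (cd_ccc hU), fun p =>
    ⟨cardinalsPreserved (cd_ccc hU) p, mem_fex.2 fun q _ => ⟨q, le_rfl, Gr U bk, isGraph q,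
      uncChrom hU q, ?_⟩⟩⟩
  intro D hD
  exact notSplit hκ.1.le hK hU hbk D hD q

end Pool.Agent.W876.Spl
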